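import Pool.Agent.Helper29_LRN.AssY
import Pool.Agent.Helper85_LRY.CAB
import Pool.Agent.Helper47_LRY.SFQ
import Pool.Agent.Helper9_LRY.USY
import Pool.Agent.Helper7_LRN.UNR

/-!
# Squad LRN: the final theorem
-/

set_option autoImplicit false

open NumberField Filter
open Pool.Agent.LRG

namespace Pool.Agent.LRN.H29

/-- **The final theorem.** -/
theorem finalAll (r₁ r₂ : ℕ) (h : 3 ≤ r₁ + r₂) :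
    (∀ X : ℝ, (Flds r₁ r₂ X).Finite) ∧
    (∀ K ∈ NonCM r₁ r₂, ∃ X₀ : ℝ, ∀ X : ℝ, X₀ ≤ X → K ∈ Flds r₁ r₂ X) ∧
    (∀ ε : ℝ, 0 < ε → ∃ X₀ : ℝ, ∀ X : ℝ, X₀ ≤ X →
      X ^ (((r₁ : ℝ) + 2 * r₂ + 1) / 2 - ε) ≤ ((NonCM r₁ r₂ ∩ ShortUnits X).ncard : ℝ)) ∧
    (∃ c X₀ : ℝ, 0 < c ∧ ∀ X : ℝ, X₀ ≤ X → X ^ c ≤
      ((NonCM r₁ r₂ ∩ ShortUnits X ∩ SmallReg (Real.log X ^ (r₁ + r₂ - 1)) ∩ Prim).ncard : ℝ)) ∧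
    (∃ (P : ℝ → ℕ) (S : ℝ → Set (IntermediateField ℚ ℂ)), Tendsto P atTop atTop ∧
      (∀ X : ℝ, 1 ≤ X → ∀ K ∈ ShortUnits X, Module.finrank ℚ K = r₁ + 2 * r₂ →
        ∀ p ≤ P X, K ∈ Fails p → ∃ E ∈ S X, E ≤ K ∧ E ∈ Fails p) ∧
      ∀ ε : ℝ, 0 < ε → ∃ C : ℝ, ∀ X : ℝ, 1 ≤ X →
        (S X).Finite ∧ ((S X).ncard : ℝ) ≤ C * X ^ ε ∧
        ({K | K ∈ Flds r₁ r₂ X ∧ ∃ p ≤ P X, K ∈ MinFails p}.ncard : ℝ) ≤ C * X ^ ε ∧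
        ({K | K ∈ Flds r₁ r₂ X ∧ ∃ p ≤ P X, K ∈ MinFails3 p}.ncard : ℝ) ≤
          C * X ^ (((r₁ : ℝ) + 2 * r₂) / 2 + ε)) ∧
    (r₁ + 2 * r₂ = 4 ∨ (r₁ + 2 * r₂).Prime ∨ r₁ + r₂ = 3 →
      ∀ p, ∀ K ∈ NonCM r₁ r₂, K ∈ Fails p → K ∈ MinFails p) ∧
    (r₁ + 2 * r₂ ≤ 8 ∨ (r₁ + 2 * r₂).Prime ∨ (∃ q : ℕ, q.Prime ∧ r₁ + 2 * r₂ = 2 * q) →
      ∀ p, ∀ K ∈ NonCM r₁ r₂, K ∈ Fails p → K ∈ MinFails3 p) :=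
  final onw cntConcl (srcConcl H7.unr) H98.rk1Stmt H74.lhm H98.unw H98.ffx
    (uppY LRY.H85.cab LRY.H9.usy) bdyConcl ureConcl floStmt H74.dir (lowY LRY.H85.cab LRY.H47.sfq)
    LRY.H10.deg r₁ r₂ h

end Pool.Agent.LRN.H29
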