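import Pool.Agent.LRN.Defs

/-!
# Squad LRN: new units generate the field
-/

set_option autoImplicit false

open Polynomial NumberField
open Pool.Agent.LRG

namespace Pool.Agent.LRN.H29

/-- A member of an independent system of units has infinite order. -/
theorem not_fin_of_indep {K : Type} [Field K] [NumberField K] {r : ℕ} {u : Fin r → (𝓞 K)ˣ}
    (hI : Indep u) (i : Fin r) : ¬ IsOfFinOrder (u i) := by
  intro h
  obtain ⟨m, hm, hm1⟩ := isOfFinOrder_iff_pow_eq_one.1 h
  have hc := hI (Pi.single i (m : ℤ)) (by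
    rw [Finset.prod_eq_single i]
    · rw [Pi.single_eq_same, zpow_natCast]
      exact hm1
    · intro j _ hj
      rw [Pi.single_eq_of_ne hj, zpow_zero]
    · intro h1
      exact absurd (Finset.mem_univ i) h1)
  have h2 := congrFun hc i
  rw [Pi.single_eq_same] at h2
  have h3 : (m : ℤ) = 0 := h2
  omega

/-- A unit of finite order from a power of its value. -/
theorem fin_of_pow {K : Type} [Field K] [NumberField K] {u : (𝓞 K)ˣ} {m : ℕ} (hm : 0 < m)
    (h : ((u : 𝓞 K) : K) ^ m = 1) : IsOfFinOrder u := by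
  refine isOfFinOrder_iff_pow_eq_one.2 ⟨m, hm, ?_⟩
  apply Units.ext
  apply RingOfIntegers.coe_injective
  rw [Units.val_pow_eq_pow_val, map_pow, Units.val_one, map_one]
  exact h

theorem pow_of_fin {K : Type} [Field K] [NumberField K] {u : (𝓞 K)ˣ} (h : IsOfFinOrder u) :
    ∃ m : ℕ, 0 < m ∧ ((u : 𝓞 K) : K) ^ m = 1 := by
  obtain ⟨m, hm, h1⟩ := isOfFinOrder_iff_pow_eq_one.1 h
  refine ⟨m, hm, ?_⟩
  have h2 := congrArg (fun t : (𝓞 K)ˣ => ((t : 𝓞 K) : K)) h1
  simpa using h2

/-- A new unit of infinite order generates the field. -/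
theorem gen_new {K : Type} [Field K] [NumberField K] {u : (𝓞 K)ˣ} (hu : IsNew u)
    (hf : ¬ IsOfFinOrder u) : IntermediateField.adjoin ℚ {((u : 𝓞 K) : K)} = ⊤ := by
  by_contra hE
  apply hf
  obtain ⟨E, hE1⟩ : ∃ E : IntermediateField ℚ K,
      E = IntermediateField.adjoin ℚ {((u : 𝓞 K) : K)} := ⟨_, rfl⟩
  have hmem : ((u : 𝓞 K) : K) ∈ E := by
    rw [hE1]
    exact IntermediateField.mem_adjoin_simple_self ℚ _
  obtain ⟨N, hN, h1⟩ := hu E (by rw [hE1]; exact hE)
  have h3 : Algebra.norm E ((u : 𝓞 K) : K) = (⟨_, hmem⟩ : E) ^ Module.finrank E K :=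
    Algebra.norm_algebraMap (S := K) (⟨_, hmem⟩ : E)
  rw [h3, ← pow_mul] at h1
  refine fin_of_pow (m := Module.finrank E K * N) (Nat.mul_pos Module.finrank_pos hN) ?_
  have h4 := congrArg (fun t : E => (t : K)) h1
  simpa using h4

theorem gen {K : Type} [Field K] [NumberField K] {r : ℕ} {u : Fin r → (𝓞 K)ˣ}
    (hu : ∀ i, IsNew (u i)) (hI : Indep u) (i : Fin r) :
    IntermediateField.adjoin ℚ {((u i : 𝓞 K) : K)} = ⊤ :=
  gen_new (hu i) (not_fin_of_indep hI i)

end Pool.Agent.LRN.H29
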