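import Mathlib

set_option autoImplicit false

open Polynomial IntermediateField

namespace Pool.Agent.LRN.H29

/-- Products of numbers whose minimal polynomials over `B` have constant coefficients of finite order
have absolute value one if they lie in `B`. -/
theorem nr2x (B : IntermediateField ℚ ℂ) (κ : Type) [Fintype κ] (x : κ → ℂ) (μ : κ → ℤ)
    (hint : ∀ k, IsIntegral B (x k))
    (hco : ∀ k, ∃ N : ℕ, 0 < N ∧ ((minpoly B (x k)).coeff 0) ^ N = 1)
    (hv : ∏ k, x k ^ μ k ∈ B) : ‖∏ k, x k ^ μ k‖ = 1 := by
  classical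
  set M : IntermediateField B ℂ := IntermediateField.adjoin B (Set.range x) with hM
  haveI : FiniteDimensional B M := by
    have : Finite (Set.range x) := Set.finite_range x
    exact IntermediateField.finiteDimensional_adjoin (by
      rintro _ ⟨k, rfl⟩
      exact hint k)
  have hmem : ∀ k, x k ∈ M := fun k => IntermediateField.subset_adjoin B _ ⟨k, rfl⟩
  let y : κ → M := fun k => ⟨x k, hmem k⟩
  have hyint : ∀ k, IsIntegral B (y k) := fun k => Algebra.IsIntegral.isIntegral (y k)
  choose N hN hN1 using hco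
  obtain ⟨P, hP⟩ : ∃ P : ℕ, P = 2 * ∏ k, N k := ⟨_, rfl⟩
  have hP0 : 0 < P := by
    rw [hP]
    exact Nat.mul_pos two_pos (Finset.prod_pos fun k _ => hN k)
  have hPk : ∀ k, ((minpoly B (x k)).coeff 0) ^ P = 1 := by
    intro k
    obtain ⟨m, hm⟩ : N k ∣ P := by
      rw [hP]
      exact Dvd.dvd.mul_left (Finset.dvd_prod_of_mem N (Finset.mem_univ k)) 2
    rw [hm, pow_mul, hN1, one_pow]
  have hnorm : ∀ k, (Algebra.norm B (y k)) ^ P = 1 := by
    intro k
    have h1 := Algebra.norm_eq_norm_adjoin (K := B) (y k)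
    have h2 : Algebra.norm B (AdjoinSimple.gen B (y k)) =
        (-1) ^ (IntermediateField.adjoin.powerBasis (hyint k)).dim *
          (minpoly B (x k)).coeff 0 := by
      have h3 := Algebra.PowerBasis.norm_gen_eq_coeff_zero_minpoly
        (IntermediateField.adjoin.powerBasis (hyint k))
      rw [IntermediateField.adjoin.powerBasis_gen] at h3
      rw [h3, IntermediateField.minpoly_gen, IntermediateField.minpoly_eq]
    rw [h1, h2]
    have h4 : ((-1 : B) ^ (IntermediateField.adjoin.powerBasis (hyint k)).dim *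
        (minpoly B (x k)).coeff 0) ^ P = 1 := by
      rw [mul_pow, hPk, mul_one, ← pow_mul, mul_comm, pow_mul, hP, pow_mul]
      norm_num
    rw [pow_right_comm, h4, one_pow]
  have hN0 : ∀ k, Algebra.norm B (y k) ≠ 0 := by
    intro k h
    have := hnorm k
    rw [h, zero_pow hP0.ne'] at this
    norm_num at this
  have hz : ∀ k (n : ℤ), Algebra.norm B (y k ^ n) = Algebra.norm B (y k) ^ n := by
    intro k n
    have hy0 : y k ≠ 0 := by
      intro h
      apply hN0 k
      rw [h, Algebra.norm_zero]
    have h12 := congrArg Units.val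
      (map_zpow (Units.map (Algebra.norm B : M →* B)) (Units.mk0 (y k) hy0) n)
    rw [Units.val_zpow_eq_zpow_val, Units.coe_map, Units.coe_map] at h12
    simpa only [Units.val_zpow_eq_zpow_val, Units.val_mk0] using h12
  set b : B := ⟨∏ k, x k ^ μ k, hv⟩ with hb
  have hprod : (algebraMap B M b) = ∏ k, y k ^ μ k := by
    apply Subtype.val_injective
    have : ((∏ k, y k ^ μ k : M) : ℂ) = ∏ k, x k ^ μ k := by
      have h5 := map_prod (algebraMap M ℂ) (fun k => y k ^ μ k) Finset.univ
      have h6 : ∀ k, algebraMap M ℂ (y k ^ μ k) = x k ^ μ k := by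
        intro k
        rw [map_zpow₀]
        rfl
      simp only [h6] at h5
      exact h5
    rw [this]
    rfl
  have h7 : Algebra.norm B (algebraMap B M b) = b ^ Module.finrank B M := Algebra.norm_algebraMap b
  have h8 : (Algebra.norm B (∏ k, y k ^ μ k)) ^ P = 1 := by
    rw [map_prod, ← Finset.prod_pow]
    apply Finset.prod_eq_one
    intro k _
    rw [hz, ← zpow_natCast, ← zpow_mul, mul_comm, zpow_mul]
    have := hnorm k
    rw [← zpow_natCast] at this
    rw [this, one_zpow]
  rw [← hprod, h7, ← pow_mul] at h8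
  have h9 : (∏ k, x k ^ μ k : ℂ) ^ (Module.finrank B M * P) = 1 := by
    have := congrArg (fun t : B => (t : ℂ)) h8
    simpa [hb] using this
  have h10 : ‖(∏ k, x k ^ μ k : ℂ)‖ ^ (Module.finrank B M * P) = 1 := by
    rw [← norm_pow, h9, norm_one]
  have h11 : Module.finrank B M * P ≠ 0 := by
    have : 0 < Module.finrank B M := Module.finrank_pos
    positivity
  exact (pow_eq_one_iff_of_nonneg (norm_nonneg _) h11).1 h10

end Pool.Agent.LRN.H29
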