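import Pool.Agent.LRN.Defs

/-!
# Squad LRN: the norms of the new units of a field to a normal field

`B` is a finite normal extension of `ℚ` inside `ℂ` which does not contain the number field `K`. Then
the constant coefficient of the minimal polynomial over `B` of a conjugate of a new unit of `K` is a
root of unity.
-/

set_option autoImplicit false

open Polynomial NumberField IntermediateField

namespace Pool.Agent.LRN.H29

theorem normal_alg (E : Type) [Field E] (i1 i2 : Algebra ℚ E)
    (h : @Normal ℚ E _ _ i1) : @Normal ℚ E _ _ i2 := by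
  rw [Subsingleton.elim i2 i1]
  exact h

theorem minpoly_alg (E : Type) [Field E] (i1 i2 : Algebra ℚ E) (x : E) :
    @minpoly ℚ E _ _ i1 x = @minpoly ℚ E _ _ i2 x := by
  rw [Subsingleton.elim i2 i1]

/-- The elements of `K` which `σ` maps into `B` form a proper subfield. -/
theorem comap_ne_top (K B : IntermediateField ℚ ℂ) [NumberField K] (hB : Normal ℚ B)
    (hKB : ¬ K ≤ B) (σ : K →+* ℂ) : B.comap σ.toRatAlgHom ≠ ⊤ := by
  intro hE
  apply hKB
  intro z hz
  have h1 : σ.toRatAlgHom ⟨z, hz⟩ ∈ B := by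
    have : (⟨z, hz⟩ : K) ∈ B.comap σ.toRatAlgHom := by
      rw [hE]
      exact IntermediateField.mem_top
    exact this
  have hint : IsIntegral ℚ (⟨z, hz⟩ : K) := Algebra.IsIntegral.isIntegral _
  have hint2 : IsIntegral ℚ z := by
    have := hint.map ((K.subtype).toRatAlgHom)
    exact this
  have hB' : @Normal ℚ B _ _ (IntermediateField.algebra' B) := normal_alg _ _ _ hB
  refine hint2.mem_intermediateField_of_minpoly_splits ?_
  have h2 := hB'.splits ⟨σ.toRatAlgHom ⟨z, hz⟩, h1⟩
  have h3 : @minpoly ℚ B _ _ (IntermediateField.algebra' B) (⟨σ.toRatAlgHom ⟨z, hz⟩, h1⟩ : B) =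
      minpoly ℚ z := by
    rw [IntermediateField.minpoly_eq]
    change minpoly ℚ (σ.toRatAlgHom ⟨z, hz⟩) = _
    rw [minpoly.algHom_eq σ.toRatAlgHom σ.toRatAlgHom.toRingHom.injective]
    rw [minpoly_alg K _ (IntermediateField.algebra' K), IntermediateField.minpoly_eq]
  rwa [h3] at h2

/-- The minimal polynomial over a linearly disjoint Galois extension. -/
theorem minpoly_disjoint {F : Type} [Field F] [CharZero F] [Algebra F ℂ]
    (B : IntermediateField F ℂ) [FiniteDimensional F B] [IsGalois F B] (x : ℂ)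
    (hx : IsIntegral F x) (hinf : IntermediateField.adjoin F {x} ⊓ B = ⊥) :
    minpoly B x = (minpoly F x).map (algebraMap F B) := by
  have hAfin : FiniteDimensional F (IntermediateField.adjoin F {x}) :=
    IntermediateField.adjoin.finiteDimensional hx
  have hLD : B.LinearDisjoint (IntermediateField.adjoin F {x}) :=
    IntermediateField.LinearDisjoint.of_inf_eq_bot (by rw [inf_comm]; exact hinf)
  have hrank := hLD.symm.adjoin_rank_eq_rank_left_of_isAlgebraic (Or.inr inferInstance)
  have hadj : IntermediateField.adjoin B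
      ((IntermediateField.adjoin F {x} : IntermediateField F ℂ) : Set ℂ) =
      IntermediateField.adjoin B {x} := by
    apply le_antisymm
    · rw [IntermediateField.adjoin_le_iff]
      have h1 : IntermediateField.adjoin F {x} ≤
          (IntermediateField.adjoin B {x}).restrictScalars F := by
        rw [IntermediateField.adjoin_le_iff]
        intro z hz
        exact IntermediateField.subset_adjoin B _ hz
      exact h1
    · rw [IntermediateField.adjoin_le_iff]
      intro z hz
      apply IntermediateField.subset_adjoin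
      exact IntermediateField.subset_adjoin F _ hz
  rw [hadj] at hrank
  have hxB : IsIntegral B x := hx.tower_top
  have hdeg : (minpoly B x).natDegree = (minpoly F x).natDegree := by
    rw [← IntermediateField.adjoin.finrank hxB, ← IntermediateField.adjoin.finrank hx]
    exact congrArg Cardinal.toNat hrank
  have hdvd : minpoly B x ∣ (minpoly F x).map (algebraMap F B) :=
    minpoly.dvd_map_of_isScalarTower F B x
  refine (Polynomial.eq_of_monic_of_dvd_of_natDegree_le (minpoly.monic hxB)
    ((minpoly.monic hx).map _) hdvd ?_).symm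
  rw [hdeg]
  exact natDegree_map_le

/-- The minimal polynomial of `c` over a Galois extension `B` of `ℚ` has coefficients in `A ⊓ B` if
`c ∈ A`. -/
theorem minpoly_coeff_mem (A B : IntermediateField ℚ ℂ) (hB : Normal ℚ B)
    (hfin : FiniteDimensional ℚ B) (c : ℂ) (hc : c ∈ A) (hint : IsIntegral ℚ c) :
    ∃ w : (A ⊓ B : IntermediateField ℚ ℂ),
      w = (minpoly (A ⊓ B : IntermediateField ℚ ℂ) c).coeff 0 ∧
      (((minpoly B c).coeff 0 : B) : ℂ) = (w : ℂ) := by
  have hB' : @Normal ℚ B _ _ (IntermediateField.algebra' B) := normal_alg _ _ _ hB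
  have hG : @IsGalois ℚ _ B _ (IntermediateField.algebra' B) := @IsGalois.mk ℚ _ B _ _ _ hB'
  set E₀ : IntermediateField ℚ ℂ := A ⊓ B with hE₀
  have hle : E₀ ≤ B := inf_le_right
  set B₁ : IntermediateField E₀ ℂ := IntermediateField.extendScalars hle with hB₁
  have hG1 : IsGalois ℚ B₁ := by
    have e : ∀ i1 i2 : Algebra ℚ B, @IsGalois ℚ _ B _ i1 → @IsGalois ℚ _ B _ i2 := by
      intro i1 i2 h
      rw [Subsingleton.elim i2 i1]
      exact h
    exact e _ _ hG
  have hF1 : FiniteDimensional ℚ B₁ := by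
    have e : ∀ i1 i2 : Module ℚ B, @Module.Finite ℚ B _ _ i1 → @Module.Finite ℚ B _ _ i2 := by
      intro i1 i2 h
      rw [Subsingleton.elim i2 i1]
      exact h
    exact e _ _ hfin
  have : IsGalois E₀ B₁ := IsGalois.tower_top_of_isGalois ℚ E₀ B₁
  have : FiniteDimensional E₀ B₁ := FiniteDimensional.right ℚ E₀ B₁
  have hinf : IntermediateField.adjoin E₀ {c} ⊓ B₁ = ⊥ := by
    rw [eq_bot_iff]
    rintro y ⟨hy1, hy2⟩
    have h1 : IntermediateField.adjoin E₀ {c} ≤
        IntermediateField.extendScalars (inf_le_left : E₀ ≤ A) := by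
      rw [IntermediateField.adjoin_le_iff]
      rintro _ rfl
      exact hc
    have h2 : y ∈ A := h1 hy1
    have h3 : y ∈ B := hy2
    rw [IntermediateField.mem_bot]
    exact ⟨⟨y, h2, h3⟩, rfl⟩
  have h4 := minpoly_disjoint B₁ c hint.tower_top hinf
  refine ⟨_, rfl, ?_⟩
  have h5 : (((minpoly B₁ c).coeff 0 : B₁) : ℂ) = (((minpoly B c).coeff 0 : B) : ℂ) := rfl
  rw [← h5, h4, coeff_map]
  rfl

/-- The constant coefficient of the minimal polynomial and the norm. -/
theorem norm_eq_coeff (E L : Type) [Field E] [Field L] [Algebra E L] [FiniteDimensional E L]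
    (y : L) : ∃ d f : ℕ, 0 < f ∧ Algebra.norm E y = ((-1) ^ d * (minpoly E y).coeff 0) ^ f := by
  have hy : IsIntegral E y := Algebra.IsIntegral.isIntegral y
  refine ⟨(IntermediateField.adjoin.powerBasis hy).dim,
    Module.finrank (IntermediateField.adjoin E {y}) L, Module.finrank_pos, ?_⟩
  rw [Algebra.norm_eq_norm_adjoin (K := E) y]
  congr 1
  have h3 := Algebra.PowerBasis.norm_gen_eq_coeff_zero_minpoly
    (IntermediateField.adjoin.powerBasis hy)
  rw [IntermediateField.adjoin.powerBasis_gen] at h3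
  rw [h3, IntermediateField.minpoly_gen]

/-- The constant coefficient of the minimal polynomial over `B` of a conjugate of a new unit of `K`
is a root of unity. -/
theorem nux (K B : IntermediateField ℚ ℂ) [NumberField K] (hB : Normal ℚ B)
    (hfin : FiniteDimensional ℚ B) (hKB : ¬ K ≤ B) (σ : K →+* ℂ) (u : (𝓞 K)ˣ) (hu : IsNew u) :
    ∃ N : ℕ, 0 < N ∧ ((minpoly B (σ ((u : 𝓞 K) : K))).coeff 0) ^ N = 1 := by
  obtain ⟨c, hc⟩ : ∃ c : ℂ, c = σ ((u : 𝓞 K) : K) := ⟨_, rfl⟩
  have hintQ : IsIntegral ℚ c := by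
    rw [hc]
    have h3 : IsIntegral ℚ ((u : 𝓞 K) : K) := Algebra.IsIntegral.isIntegral _
    exact h3.map (RingHom.toRatAlgHom σ)
  obtain ⟨w, hw, hwB⟩ := minpoly_coeff_mem (σ.toRatAlgHom).fieldRange B hB hfin c
    (by rw [hc]; exact ⟨_, rfl⟩) hintQ
  obtain ⟨N, hN, hN1⟩ := hu _ (comap_ne_top K B hB hKB σ)
  obtain ⟨d, f, hf, hdf⟩ := norm_eq_coeff (B.comap σ.toRatAlgHom) K ((u : 𝓞 K) : K)
  -- the isomorphism induced by `σ`
  have hmem : ∀ x : B.comap σ.toRatAlgHom,
      σ.comp (algebraMap (B.comap σ.toRatAlgHom) K) x ∈ (σ.toRatAlgHom).fieldRange ⊓ B := by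
    intro x
    exact ⟨⟨(x : K), rfl⟩, x.2⟩
  let φ : B.comap σ.toRatAlgHom →+* ((σ.toRatAlgHom).fieldRange ⊓ B : IntermediateField ℚ ℂ) :=
    (σ.comp (algebraMap (B.comap σ.toRatAlgHom) K)).codRestrict _ hmem
  have hφ : ∀ x, ((φ x : ((σ.toRatAlgHom).fieldRange ⊓ B : IntermediateField ℚ ℂ)) : ℂ) =
      σ (x : K) := fun x => rfl
  have hbij : Function.Bijective φ := by
    refine ⟨φ.injective, ?_⟩
    rintro ⟨x, ⟨k, hk⟩, hx⟩
    have hk' : σ k = x := hk
    refine ⟨⟨k, ?_⟩, ?_⟩
    · change σ k ∈ B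
      rw [hk']
      exact hx
    · apply Subtype.ext
      rw [hφ]
      exact hk'
  have hyint : IsIntegral (B.comap σ.toRatAlgHom) ((u : 𝓞 K) : K) :=
    Algebra.IsIntegral.isIntegral _
  have hmin : (minpoly (B.comap σ.toRatAlgHom) ((u : 𝓞 K) : K)).map φ =
      minpoly ((σ.toRatAlgHom).fieldRange ⊓ B : IntermediateField ℚ ℂ) c := by
    refine minpoly.eq_of_irreducible_of_monic ?_ ?_ ((minpoly.monic hyint).map _)
    · have h1 := minpoly.irreducible hyint
      have h2 : (minpoly (B.comap σ.toRatAlgHom) ((u : 𝓞 K) : K)).map φ =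
          Polynomial.mapEquiv (RingEquiv.ofBijective φ hbij)
            (minpoly (B.comap σ.toRatAlgHom) ((u : 𝓞 K) : K)) := rfl
      rw [h2]
      exact (MulEquiv.irreducible_iff _).2 h1
    · rw [aeval_def, eval₂_map]
      have h2 : (algebraMap ((σ.toRatAlgHom).fieldRange ⊓ B : IntermediateField ℚ ℂ) ℂ).comp φ =
          σ.comp (algebraMap (B.comap σ.toRatAlgHom) K) := RingHom.ext fun x => rfl
      rw [h2, hc, ← hom_eval₂]
      have h3 := minpoly.aeval (B.comap σ.toRatAlgHom) ((u : 𝓞 K) : K)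
      rw [aeval_def] at h3
      rw [h3, map_zero]
  have hz : (minpoly (B.comap σ.toRatAlgHom) ((u : 𝓞 K) : K)).coeff 0 ^ (2 * (f * N)) = 1 := by
    rw [hdf, ← pow_mul, mul_pow] at hN1
    have h2 := congrArg (fun t => t ^ 2) hN1
    simp only [one_pow] at h2
    rw [mul_pow, ← pow_mul, ← pow_mul, ← pow_mul] at h2
    have h3 : ((-1 : B.comap σ.toRatAlgHom) ^ (d * (f * N * 2))) = 1 := by
      rw [← mul_assoc, mul_comm, pow_mul]
      norm_num
    rw [h3, one_mul, mul_comm (f * N) 2] at h2
    exact h2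
  refine ⟨2 * (f * N), by positivity, ?_⟩
  apply Subtype.val_injective
  push_cast
  rw [← hc, hwB, hw, ← hmin, coeff_map]
  have h4 := congrArg (fun t => ((φ t : ((σ.toRatAlgHom).fieldRange ⊓ B :
    IntermediateField ℚ ℂ)) : ℂ)) hz
  simp only [map_pow, map_one] at h4
  exact h4

end Pool.Agent.LRN.H29
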