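import Pool.Agent.Helper5_LRG.AssC
import Pool.Agent.Helper29_LRN.GEN
import Pool.Agent.Helper29_LRN.NUX
import Pool.Agent.Helper29_LRN.NR2X

/-!
# Squad LRN: an arc carries boundedly many fields (after helper5, helper47, helper88)
-/

set_option autoImplicit false

open Polynomial NumberField
open Pool.Agent.LRG
open Pool.Agent.LRG.CX (CjF Cst Rx)

namespace Pool.Agent.LRN.H29

/-- The situation for one field: an arc with the identity of `KolConcl` and a specialization to the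
new units `u` of the subfield `K` of `ℂ`. -/
structure SitN {Ω : Type} [Field Ω] [CharZero Ω] (n r p q : ℕ) (z₀ : Ix n r → ℤ) (e : Fin r → ℤ)
    (η : Ix n r → Ω) (D : Derivation ℤ Ω Ω) (x : Fin r → Fin n → Ω)
    (B : Fin q → Fin r × Fin n → ℤ) (N : Fin r × Fin n → Fin q → ℤ) (z : Ix n r → ℤ)
    (g : Rx η x →+* ℂ) (K : IntermediateField ℚ ℂ) [NumberField K] (u : Fin r → (𝓞 K)ˣ)
    (π : Fin r → (Fin n ≃ (K →+* ℂ))) : Prop where
  hn : 0 < n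
  he : ∀ i, e i = 1 ∨ e i = -1
  split : ∀ i, chiI e (fun s => (z₀ s : Ω) + (p : Ω) ^ 2 * η s) i = ∏ j, (X - C (x i j))
  alg : ∀ μ : Fin r × Fin n → ℤ, D (∏ k, x k.1 k.2 ^ μ k) = 0 →
    IsAlgebraic ℚ (∏ k, x k.1 k.2 ^ μ k)
  rel : ∀ k, D (x k.1 k.2 / ∏ l, (∏ k', x k'.1 k'.2 ^ B l k') ^ N k l) = 0
  top : TopId (fun s => (z₀ s : Ω) + (p : Ω) ^ 2 * η s) x N
  gη : ∀ (s : Ix n r) (h : η s ∈ Rx η x), g ⟨η s, h⟩ = (z s : ℂ)
  gx : ∀ i j (h : x i j ∈ Rx η x), g ⟨x i j, h⟩ = π i j ((u i : 𝓞 K) : K)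
  deg : Module.finrank ℚ K = n
  new : ∀ i, IsNew (u i)
  gen : ∀ i, IntermediateField.adjoin ℚ {((u i : 𝓞 K) : K)} = ⊤
  ind : Indep u
  hcst : cst K u = e
  hpt : ∀ s, pt n K u s = z₀ s + (p : ℤ) ^ 2 * z s

theorem nmc (Ω : Type) [Field Ω] [CharZero Ω] (n r p q : ℕ) (z₀ : Ix n r → ℤ)
    (e : Fin r → ℤ) (η : Ix n r → Ω) (D : Derivation ℤ Ω Ω) (x : Fin r → Fin n → Ω)
    (B : Fin q → Fin r × Fin n → ℤ) (N : Fin r × Fin n → Fin q → ℤ) (z : Ix n r → ℤ)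
    (g : Rx η x →+* ℂ) (K : IntermediateField ℚ ℂ) [NumberField K] (u : Fin r → (𝓞 K)ˣ)
    (π : Fin r → (Fin n ≃ (K →+* ℂ))) (hs : SitN n r p q z₀ e η D x B N z g K u π)
    (hfin : FiniteDimensional ℚ (CjF (Cst D x))) (hK : ¬ K ≤ CjF (Cst D x))
    (μ : Fin r × Fin n → ℤ) (hμ : D (∏ k, x k.1 k.2 ^ μ k) = 0) :
    ‖∏ k : Fin r × Fin n, (π k.1 k.2 ((u k.1 : 𝓞 K) : K)) ^ μ k‖ = 1 := by
  have hprod : ∀ i, ∏ j, x i j = 1 ∨ ∏ j, x i j = -1 :=
    fun i => H64.cpr Ω n (e i) _ (x i) hs.hn (hs.he i) (hs.split i)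
  have hx : ∀ i j, x i j ∈ Rx η x := fun i j => Subring.subset_closure (Or.inr ⟨(i, j), rfl⟩)
  obtain ⟨hx0, hmem, hg⟩ := H39.run Ω n r (Rx η x) x hx hprod
  obtain ⟨hg0, hgμ⟩ := hg ℂ g
  have hβ : ∏ k, x k.1 k.2 ^ μ k ∈ Rx η x := hmem μ
  have h1 : g ⟨_, hβ⟩ = ∏ k : Fin r × Fin n, (π k.1 k.2 ((u k.1 : 𝓞 K) : K)) ^ μ k := by
    rw [hgμ μ hβ]
    refine Finset.prod_congr rfl fun k _ => ?_
    rw [hs.gx]
  have hnorm : Normal ℚ (CjF (Cst D x)) := H32.nor Ω (Cst D x) (by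
    rintro β ⟨μ, h, rfl⟩
    exact hs.alg μ h)
  have h2 : g ⟨_, hβ⟩ ∈ CjF (Cst D x) :=
    IntermediateField.subset_adjoin _ _
      ⟨_, ⟨μ, hμ, rfl⟩, Pool.Agent.LRG.H29.mrt Ω (Rx η x) g ⟨_, hβ⟩ (hs.alg μ hμ)⟩
  rw [h1] at h2
  have hint : ∀ k : Fin r × Fin n, IsIntegral ℚ (π k.1 k.2 ((u k.1 : 𝓞 K) : K)) := by
    intro k
    have h3 : IsIntegral ℚ ((u k.1 : 𝓞 K) : K) := Algebra.IsIntegral.isIntegral _
    exact h3.map (RingHom.toRatAlgHom (π k.1 k.2))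
  exact nr2x (CjF (Cst D x)) (Fin r × Fin n) (fun k => π k.1 k.2 ((u k.1 : 𝓞 K) : K)) μ
    (fun k => (hint k).tower_top)
    (fun k => nux K (CjF (Cst D x)) hnorm hfin hK (π k.1 k.2) (u k.1) (hs.new k.1)) h2

theorem klb (hInr : InrStmt) (Ω : Type) [Field Ω] [CharZero Ω] (n r p q : ℕ) (z₀ : Ix n r → ℤ)
    (e : Fin r → ℤ) (η : Ix n r → Ω) (D : Derivation ℤ Ω Ω) (x : Fin r → Fin n → Ω)
    (B : Fin q → Fin r × Fin n → ℤ) (N : Fin r × Fin n → Fin q → ℤ) (z : Ix n r → ℤ)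
    (g : Rx η x →+* ℂ) (K : IntermediateField ℚ ℂ) [NumberField K] (u : Fin r → (𝓞 K)ˣ)
    (π : Fin r → (Fin n ≃ (K →+* ℂ))) (S : SitN n r p q z₀ e η D x B N z g K u π)
    (hfd : FiniteDimensional ℚ (CjF (Cst D x))) : K ≤ CjF (Cst D x) := by
  by_contra hK
  have hη : ∀ s, η s ∈ Rx η x := fun s => Subring.subset_closure (Or.inl ⟨s, rfl⟩)
  have hx : ∀ i j, x i j ∈ Rx η x := fun i j => Subring.subset_closure (Or.inr ⟨(i, j), rfl⟩)
  have hprod : ∀ i, ∏ j, x i j = 1 ∨ ∏ j, x i j = -1 := fun i =>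
    H64.cpr Ω n (e i) _ (x i) S.hn (S.he i) (S.split i)
  obtain ⟨hx0, -, hrun⟩ := H39.run Ω n r (Rx η x) x hx hprod
  obtain ⟨hg0, -⟩ := hrun ℂ g
  set v : Fin r → (K →+* ℂ) → ℂ := fun i σ => σ ((u i : 𝓞 K) : K) with hv
  have hinj : ∀ i, Function.Injective (v i) := fun i =>
    (H48.spl K (u i : 𝓞 K) (S.gen i) ℂ).1
  have hX0 : ∀ i j, v i (π i j) ≠ 0 := by
    intro i j
    have h1 := hg0 i j
    rw [S.gx i j (hx i j)] at h1
    exact h1
  set y : Ix n r → ℂ := fun s => (z₀ s : ℂ) + (p : ℂ) ^ 2 * (z s : ℂ) with hy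
  have hyp : ∀ s, y s = ((pt n K u s : ℤ) : ℂ) := by
    intro s
    rw [S.hpt s, hy]
    push_cast
    rfl
  have hytr : ∀ i i' (a b : Fin n), y (Sum.inr (i, i', a, b)) =
      ∑ σ, v i σ ^ (a : ℕ) * v i' σ ^ (b : ℕ) := by
    intro i i' a b
    rw [hyp]
    have h1 := H6.trc K ((u i : 𝓞 K) ^ (a : ℕ) * (u i' : 𝓞 K) ^ (b : ℕ)) ℂ
    have h2 : pt n K u (Sum.inr (i, i', a, b)) =
      Algebra.trace ℤ (𝓞 K) ((u i : 𝓞 K) ^ (a : ℕ) * (u i' : 𝓞 K) ^ (b : ℕ)) := rfl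
    rw [h2, h1]
    refine Finset.sum_congr rfl fun σ _ => ?_
    rw [hv]
    simp only [map_mul, map_pow]
  -- the identity over the complex numbers
  have htop : TopId y (fun i j => v i (π i j)) N := by
    have h1 := H16.tpm Ω ℂ n r q (Rx η x)
      (fun s => ((z₀ s : Rx η x)) + (p : Rx η x) ^ 2 * ⟨η s, hη s⟩)
      (fun i j => ⟨x i j, hx i j⟩) N (by
        have h2 := S.top
        have e1 : (fun s => ((((z₀ s : Rx η x)) + (p : Rx η x) ^ 2 * ⟨η s, hη s⟩ : Rx η x) : Ω))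
            = fun s => (z₀ s : Ω) + (p : Ω) ^ 2 * η s := by
          funext s
          push_cast
          rfl
        rw [e1]
        exact h2) g
    have e2 : (fun s => g ((z₀ s : Rx η x) + (p : Rx η x) ^ 2 * ⟨η s, hη s⟩)) = y := by
      funext s
      rw [map_add, map_mul, map_pow, map_intCast, map_natCast, S.gη s (hη s)]
    have e3 : (fun i j => g ⟨x i j, hx i j⟩) = fun i j => v i (π i j) := by
      funext i j
      exact S.gx i j (hx i j)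
    rw [e2, e3] at h1
    exact h1
  -- the relations of the logarithms
  have hlog := H72.lgr Ω D (Fin r × Fin n) (fun k => x k.1 k.2) (fun k => v k.1 (π k.1 k.2)) q B N
    (fun k => hx0 k.1 k.2) (fun k => hX0 k.1 k.2) S.rel
    (fun μ hμ => nmc Ω n r p q z₀ e η D x B N z g K u π S hfd hK μ hμ)
  set Z : Fin q → ℝ := fun l => Real.log ‖∏ k' : Fin r × Fin n, v k'.1 (π k'.1 k'.2) ^ B l k'‖
    with hZ
  have hdet := (H7.grz H39.ccv) n r q (K →+* ℂ) y v π N hinj hytr htop Z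
  have hent : ∀ i (σ : K →+* ℂ), ∑ l, (N (i, (π i).symm σ) l : ℝ) * Z l = Real.log ‖v i σ‖ := by
    intro i σ
    have h1 := hlog (i, (π i).symm σ)
    simp only [Equiv.apply_symm_apply] at h1
    rw [h1]
  simp only [hent] at hdet
  obtain ⟨c, hc0, hc⟩ := H95.gdz r (K →+* ℂ) (fun i σ => Real.log ‖v i σ‖) hdet
  exact hc0 (hInr K r u S.ind c hc)

theorem blk (hInr : InrStmt) (hKol : KolConcl) : BlkConcl := by
  intro n r hr hn
  refine ⟨2 ^ n ^ n, ?_⟩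
  intro p _ z₀ e M F hM hU ξ hξ hVan κ K hK u x k₀ hinjK hdeg hnew hind hcst hpt hdvd hx0 hq
  have hn0 : 0 < n := by omega
  have hgen : ∀ k i, IntermediateField.adjoin ℚ {((u k i : 𝓞 (K k)) : K k)} = ⊤ :=
    fun k i => gen (hnew k) (hind k) i
  have he : ∀ i, e i = 1 ∨ e i = -1 := by
    intro i
    have h1 := (H77.mch n (K k₀) (u k₀ i) (hdeg k₀) (hgen k₀ i)).2
    have h2 := congrFun (hcst k₀) i
    rw [← h2]
    exact h1
  obtain ⟨Ω, _, _, _, D, y, hArc⟩ := H77.omr p n r z₀ e ξ hn0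
  obtain ⟨η, hη⟩ : ∃ η : Ix n r → Ω, η = fun s => algebraMap (PowerSeries ℤ_[p]) Ω (ξ s) :=
    ⟨_, rfl⟩
  have hyO : yO z₀ ξ Ω = fun s => (z₀ s : Ω) + (p : Ω) ^ 2 * η s := by
    rw [hη]
    rfl
  have hsplit : ∀ i, chiI e (fun s => (z₀ s : Ω) + (p : Ω) ^ 2 * η s) i =
      ∏ j, (X - C (y i j)) := by
    intro i
    rw [← hyO]
    exact hArc.roots i
  have hker : ∀ k, ∀ q : MvPolynomial (Ix n r) ℤ, MvPolynomial.aeval η q = 0 →
      MvPolynomial.eval (x k) q = 0 := by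
    intro k q h1
    refine hq q ?_ k
    apply hArc.inj
    have h2 : ((algebraMap (PowerSeries ℤ_[p]) Ω).comp
        (MvPolynomial.aeval ξ : MvPolynomial (Ix n r) ℤ →ₐ[ℤ] PowerSeries ℤ_[p]).toRingHom) =
        (MvPolynomial.aeval η : MvPolynomial (Ix n r) ℤ →ₐ[ℤ] Ω).toRingHom := by
      refine MvPolynomial.ringHom_ext (fun a => by simp) (fun s => ?_)
      rw [hη]
      simp
    have h3 := RingHom.congr_fun h2 q
    rw [map_zero, ← h1]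
    exact h3
  choose g hg using fun k => (H85.spz H99.lyo) Ω n r p z₀ e η y hn0 hsplit (x k) (hker k)
  choose π hπ using fun k => (H17.mat H77.mch H48.spl) Ω n r p z₀ e η y hn0 hsplit (x k) (g k)
    (hg k) (K k) (u k) (hdeg k) (hgen k) (hcst k) (hpt k)
  have hmem : ∀ i j, y i j ∈ Rx η y := fun i j =>
    Subring.subset_closure (Or.inr ⟨(i, j), rfl⟩)
  have hinj : ∀ i, Function.Injective (y i) := by
    intro i j j' hjj
    have h1 : g k₀ ⟨y i j, hmem i j⟩ = g k₀ ⟨y i j', hmem i j'⟩ := by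
      congr 1
      exact Subtype.ext hjj
    rw [hπ k₀ i j, hπ k₀ i j'] at h1
    exact (π k₀ i).injective ((H48.spl (K k₀) (u k₀ i) (hgen k₀ i) ℂ).1 h1)
  have hprod : ∀ i, ∏ j, y i j = 1 ∨ ∏ j, y i j = -1 := by
    intro i
    exact H64.cpr Ω n (e i) (fun j => (z₀ (Sum.inl (i, j)) : Ω) + (p : Ω) ^ 2 * η (Sum.inl (i, j)))
      (y i) hn0 (he i) (hsplit i)
  obtain ⟨hne, hzm, hgz⟩ := H39.run Ω n r (Rx η y) y hmem hprod
  obtain ⟨q, B, N, hrel, htop⟩ := hKol p n r z₀ e M F hM hU ξ hξ hVan Ω D y hArc hinj hne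
  have halg : ∀ μ : Fin r × Fin n → ℤ, D (∏ k, y k.1 k.2 ^ μ k) = 0 →
      IsAlgebraic ℚ (∏ k, y k.1 k.2 ^ μ k) :=
    H5.algT p n r z₀ e ξ Ω D y hn0 he hArc (x k₀) hx0
  obtain ⟨L, hLn, hLf, hLm, hLd⟩ := H40.lzd n (K k₀) (hdeg k₀)
  have hCj : CjF (Cst D y) ≤ L := by
    refine H51.len Ω (Cst D y) L hLn ?_
    rintro β ⟨μ, hμ, rfl⟩
    refine ⟨halg μ hμ, g k₀ ⟨∏ k, y k.1 k.2 ^ μ k, hzm μ⟩, ?_, ?_⟩
    · rw [(hgz ℂ (g k₀)).2 μ (hzm μ)]
      refine prod_mem fun k _ => zpow_mem ?_ _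
      rw [hπ k₀ k.1 k.2]
      exact hLm _ _
    · exact Pool.Agent.LRG.H29.mrt Ω (Rx η y) (g k₀) ⟨∏ k, y k.1 k.2 ^ μ k, hzm μ⟩ (halg μ hμ)
  have hfin : FiniteDimensional ℚ (CjF (Cst D y)) :=
    FiniteDimensional.of_injective (IntermediateField.inclusion hCj).toLinearMap
      (IntermediateField.inclusion hCj).injective
  have hKC : ∀ k, K k ≤ CjF (Cst D y) := by
    intro k
    refine klb hInr Ω n r p q z₀ e η D y B N (x k) (g k) (K k) (u k) (π k) ?_ hfin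
    exact
      { hn := hn0
        he := he
        split := hsplit
        alg := halg
        rel := hrel
        top := by
          rw [← hyO]
          exact htop
        gη := hg k
        gx := hπ k
        deg := hdeg k
        new := hnew k
        gen := hgen k
        ind := hind k
        hcst := hcst k
        hpt := hpt k }
  have h1 := H65.nsf (n ^ n) L hLn hLf hLd
  have h2 : Set.range K ⊆ {E : IntermediateField ℚ ℂ | E ≤ L} := by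
    rintro E ⟨k, rfl⟩
    exact (hKC k).trans hCj
  refine (Set.encard_le_encard h2).trans (h1.trans (le_of_eq ?_))
  push_cast
  rfl

end Pool.Agent.LRN.H29
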