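import Pool.Agent.Helper29_LRN.CLS

set_option autoImplicit false

/-! Squad LRN: sum over the classes (after helper65). -/

open Polynomial NumberField
open Pool.Agent.Helper85_Leo (LeopoldtAt)
open Pool.Agent.LRG

namespace Pool.Agent.LRN.H29

theorem cnt (hsiz : SizConcl) (hcls : ∀ (p : ℕ) [Fact p.Prime] (n r : ℕ) (z₀ : Ix n r → ℤ)
    (e : Fin r → ℤ) (ε : ℝ), 0 < ε → 0 < r → 1 < n → ∃ C : ℝ, ∀ X : ℝ, 1 ≤ X →
    (ClsNew p n r z₀ e X).Finite ∧ ((ClsNew p n r z₀ e X).ncard : ℝ) ≤ C * X ^ ε) :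
    CntConcl := by
  intro p _ n r ε hε hr hn
  classical
  have hp : 0 < p := (Fact.out : p.Prime).pos
  have hex : ∀ a : (Ix n r → Fin (p ^ 3)) × (Fin r → Bool), ∃ C : ℝ, ∀ X : ℝ, 1 ≤ X →
      (ClsNew p n r (fun s => ((a.1 s : ℕ) : ℤ)) (fun i => if a.2 i = true then 1 else -1)
        X).Finite ∧
      ((ClsNew p n r (fun s => ((a.1 s : ℕ) : ℤ)) (fun i => if a.2 i = true then 1 else -1)
        X).ncard : ℝ) ≤ C * X ^ ε :=
    fun a => hcls p n r _ _ ε hε hr hn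
  choose C hC using hex
  refine ⟨∑ a, C a, fun X hX => ?_⟩
  have hsub : NewFlds n r X ∩ MinBad p ⊆
      ⋃ a : (Ix n r → Fin (p ^ 3)) × (Fin r → Bool),
        ClsNew p n r (fun s => ((a.1 s : ℕ) : ℤ)) (fun i => if a.2 i = true then 1 else -1) X := by
    rintro K ⟨⟨hK, hfr, u, hmax, hbdd⟩, ⟨hK2, hleo⟩⟩
    have hs := (hsiz n r K u X hfr hX hn hmax.new hmax.ind hbdd).1
    have hp3 : (0 : ℤ) < (p : ℤ) ^ 3 := by positivity
    have hlt : ∀ s, (pt n K u s % (p : ℤ) ^ 3).toNat < p ^ 3 := by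
      intro s
      have h1 := Int.emod_lt_of_pos (pt n K u s) hp3
      have h0 := Int.emod_nonneg (pt n K u s) hp3.ne'
      have h2 : ((pt n K u s % (p : ℤ) ^ 3).toNat : ℤ) < ((p ^ 3 : ℕ) : ℤ) := by
        rw [Int.toNat_of_nonneg h0]
        push_cast
        exact h1
      exact_mod_cast h2
    rw [Set.mem_iUnion]
    refine ⟨(fun s => ⟨(pt n K u s % (p : ℤ) ^ 3).toNat, hlt s⟩,
      fun i => decide (cst K u i = 1)), hK, u, hfr, hmax, hbdd, ?_, ?_, hleo⟩
    · funext i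
      rcases hs i with h | h
      · simp [h]
      · simp [h]
    · intro s
      have h0 := Int.emod_nonneg (pt n K u s) hp3.ne'
      show (p : ℤ) ^ 3 ∣ pt n K u s - ((pt n K u s % (p : ℤ) ^ 3).toNat : ℤ)
      rw [Int.toNat_of_nonneg h0]
      exact Int.dvd_self_sub_emod
  have hfin : (⋃ a : (Ix n r → Fin (p ^ 3)) × (Fin r → Bool),
      ClsNew p n r (fun s => ((a.1 s : ℕ) : ℤ)) (fun i => if a.2 i = true then 1 else -1)
        X).Finite := Set.finite_iUnion fun a => (hC a X hX).1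
  refine ⟨hfin.subset hsub, ?_⟩
  have hcard : (⋃ a : (Ix n r → Fin (p ^ 3)) × (Fin r → Bool),
      ClsNew p n r (fun s => ((a.1 s : ℕ) : ℤ)) (fun i => if a.2 i = true then 1 else -1)
        X).ncard ≤ ∑ a : (Ix n r → Fin (p ^ 3)) × (Fin r → Bool),
      (ClsNew p n r (fun s => ((a.1 s : ℕ) : ℤ)) (fun i => if a.2 i = true then 1 else -1)
        X).ncard := by
    have h1 : (⋃ a : (Ix n r → Fin (p ^ 3)) × (Fin r → Bool),
      ClsNew p n r (fun s => ((a.1 s : ℕ) : ℤ)) (fun i => if a.2 i = true then 1 else -1) X) =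
        ((Finset.univ.biUnion fun a => (hC a X hX).1.toFinset : Finset _) : Set _) := by
      ext K
      simp
    rw [h1, Set.ncard_coe_finset]
    refine Finset.card_biUnion_le.trans (Finset.sum_le_sum fun a _ => ?_)
    exact (Set.ncard_eq_toFinset_card _ (hC a X hX).1).ge
  calc ((NewFlds n r X ∩ MinBad p).ncard : ℝ)
      ≤ ((⋃ a : (Ix n r → Fin (p ^ 3)) × (Fin r → Bool),
      ClsNew p n r (fun s => ((a.1 s : ℕ) : ℤ)) (fun i => if a.2 i = true then 1 else -1)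
        X).ncard : ℝ) := by
        exact_mod_cast Set.ncard_le_ncard hsub hfin
    _ ≤ ((∑ a : (Ix n r → Fin (p ^ 3)) × (Fin r → Bool),
      (ClsNew p n r (fun s => ((a.1 s : ℕ) : ℤ)) (fun i => if a.2 i = true then 1 else -1)
        X).ncard : ℕ) : ℝ) := by exact_mod_cast hcard
    _ = ∑ a : (Ix n r → Fin (p ^ 3)) × (Fin r → Bool),
      ((ClsNew p n r (fun s => ((a.1 s : ℕ) : ℤ)) (fun i => if a.2 i = true then 1 else -1)
        X).ncard : ℝ) := by push_cast; rfl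
    _ ≤ ∑ a, C a * X ^ ε := Finset.sum_le_sum fun a _ => (hC a X hX).2
    _ = (∑ a, C a) * X ^ ε := by rw [Finset.sum_mul]

end Pool.Agent.LRN.H29
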