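import Pool.Agent.Helper5_LRG.AssA
import Pool.Agent.Helper29_LRN.GEN

/-!
# Squad LRN: the universal Gram determinant vanishes at a minimal counterexample (after helper41)
-/

set_option autoImplicit false

open Polynomial NumberField
open Pool.Agent.Helper85_Leo (LeopoldtAt HasLog unitVal)
open Pool.Agent.LUB (LogMod emb)
open Pool.Agent.LRG

namespace Pool.Agent.LRN.H29

theorem fal (hker : KerStmt) : FalConcl := by
  intro p hp n r z₀ e M F hM hU K _ _ u x hn hr0 hmax hcst hpt hpx hL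
  obtain ⟨φ, hφ⟩ := Pool.Agent.LUB.H89.evh p (Ix n r) (fun s => (x s : ℤ_[p]))
    (fun s => (PadicInt.norm_int_lt_one_iff_dvd (x s)).2 (hpx s))
  refine ⟨φ, hφ, ?_⟩
  obtain ⟨w, b, l, h1, h2, h3, h4⟩ := hU ℤ_[p] φ (fun s => ((pt n K u s : ℤ) : ℤ_[p]))
    (by intro s; rw [hφ, hpt]; push_cast; rfl)
  rw [h4]
  have hgen' : ∀ i, IntermediateField.adjoin ℚ {((u i : 𝓞 K) : K)} = ⊤ :=
    gen hmax.new hmax.ind
  subst hcst
  have hchi := H41.fal_chi H77.mch p n r K u hn hgen'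
  obtain ⟨c, hc0, hc⟩ := hker p K r M u
    (fun σ i => eval₂ (emb p) (σ ((u i : 𝓞 K) : K)) (l i)) hL hmax (by
      intro σ i
      have e1 := h1 i
      have e2 := h2 i
      rw [hchi i] at e1 e2
      exact H40.flg p K (u i) M (w i) (b i) (l i) e1 e2 σ)
  refine H44.crg n r ℤ_[p] ℂ_[p] (emb p) (H41.fal_emb_inj p) (K →+* ℂ_[p]) _ l
    (fun i σ => σ ((u i : 𝓞 K) : K)) ?_ h3 c hc0 hc
  intro i i' a b
  rw [map_intCast]
  have e1 : pt n K u (Sum.inr (i, i', a, b)) = Algebra.trace ℤ (𝓞 K)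
      ((u i : 𝓞 K) ^ (a : ℕ) * (u i' : 𝓞 K) ^ (b : ℕ)) := rfl
  rw [e1, H6.trc K _ ℂ_[p]]
  refine Finset.sum_congr rfl fun σ _ => ?_
  have e2 : (((u i : 𝓞 K) ^ (a : ℕ) * (u i' : 𝓞 K) ^ (b : ℕ) : 𝓞 K) : K)
      = ((u i : 𝓞 K) : K) ^ (a : ℕ) * ((u i' : 𝓞 K) : K) ^ (b : ℕ) := rfl
  rw [e2, map_mul, map_pow, map_pow]

end Pool.Agent.LRN.H29
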