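import Pool.Agent.LRN.Stmts
import Pool.Agent.Helper29_LRN.GEN

/-!
# Squad LRN: in a primitive field every unit of infinite order generates the field
-/

set_option autoImplicit false

open Polynomial NumberField
open Pool.Agent.LRG

namespace Pool.Agent.LRN.H29

/-- An algebraic integer in `⊥` is an integer. -/
theorem int_of_mem_bot {K : Type} [Field K] [NumberField K] (x : 𝓞 K)
    (h : (x : K) ∈ (⊥ : IntermediateField ℚ K)) : ∃ a : ℤ, x = (a : 𝓞 K) := by
  obtain ⟨q, hq⟩ := IntermediateField.mem_bot.mp h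
  have hi : IsIntegral ℤ (algebraMap ℚ K q) := by
    rw [hq]
    exact x.isIntegral_coe
  have hq2 : IsIntegral ℤ q := (isIntegral_algebraMap_iff (algebraMap ℚ K).injective).mp hi
  obtain ⟨a, ha⟩ := (IsIntegrallyClosed.isIntegral_iff (R := ℤ)).mp hq2
  refine ⟨a, ?_⟩
  apply RingOfIntegers.coe_injective
  have h3 : algebraMap (𝓞 K) K x = algebraMap ℚ K q := hq.symm
  rw [h3, ← ha]
  simp

/-- In a primitive field every unit of infinite order generates the field. -/
theorem ugen_of_primitive {K : Type} [Field K] [NumberField K] (hP : Primitive K) : UGen K := by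
  intro u hu
  rcases hP (IntermediateField.adjoin ℚ {((u : 𝓞 K) : K)}) with h | h
  · exfalso
    have hmem : ((u : 𝓞 K) : K) ∈ (⊥ : IntermediateField ℚ K) := by
      rw [← h]
      exact IntermediateField.mem_adjoin_simple_self ℚ _
    obtain ⟨a, ha⟩ := int_of_mem_bot (u : 𝓞 K) hmem
    have hmem2 : (((u⁻¹ : (𝓞 K)ˣ) : 𝓞 K) : K) ∈ (⊥ : IntermediateField ℚ K) := by
      have e : (((u⁻¹ : (𝓞 K)ˣ) : 𝓞 K) : K) = ((u : 𝓞 K) : K)⁻¹ := by
        rw [eq_comm, inv_eq_iff_eq_inv]
        apply eq_inv_of_mul_eq_one_left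
        rw [← map_mul, Units.mul_inv, map_one]
      rw [e]
      exact inv_mem hmem
    obtain ⟨b, hb⟩ := int_of_mem_bot _ hmem2
    have hab : a * b = 1 := by
      have h1 : ((a : 𝓞 K)) * (b : 𝓞 K) = 1 := by
        rw [← ha, ← hb, Units.mul_inv]
      exact_mod_cast h1
    have ha1 : a ^ 2 = 1 := by
      rcases Int.isUnit_iff.mp (IsUnit.of_mul_eq_one b hab) with h1 | h1 <;> rw [h1] <;> norm_num
    have hu2 : u ^ 2 = 1 := by
      apply Units.ext
      rw [Units.val_pow_eq_pow_val, ha, Units.val_one]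
      exact_mod_cast ha1
    exact hu (isOfFinOrder_iff_pow_eq_one.2 ⟨2, by norm_num, hu2⟩)
  · exact h

end Pool.Agent.LRN.H29
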