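import Pool.Agent.Helper5_LRG.AssA
import Pool.Agent.Helper29_LRN.GEN

/-!
# Squad LRN: the size of the coordinates of a field with short new units (after helper27)
-/

set_option autoImplicit false

open Polynomial NumberField
open Pool.Agent.LRG

namespace Pool.Agent.LRN.H29

theorem siz : SizConcl := by
  intro n r K _ _ u X hn hX h1n hu hI hB
  have hgen := gen hu hI
  have hX0 : (0 : ℝ) ≤ X := zero_le_one.trans hX
  have hn1 : (1 : ℝ) ≤ n := by exact_mod_cast h1n.le
  refine ⟨fun i => (H77.mch n K (u i) hn (hgen i)).2, ?_⟩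
  rintro (⟨i, j⟩ | ⟨i, i', a, b⟩)
  · have h := H27.siz_coeff H48.spl n K (u i : 𝓞 K) hn (hgen i) X hX (fun σ => hB i σ) (j.1 + 1)
    have e : pt n K u (Sum.inl (i, j)) = (minpoly ℤ ((u i : 𝓞 K))).coeff (j.1 + 1) := rfl
    rw [e]
    refine h.trans ?_
    have h2 : X ^ n ≤ X ^ (2 * n) := pow_le_pow_right₀ hX (by omega)
    calc (2 : ℝ) ^ n * X ^ n ≤ (2 ^ n * n) * X ^ n := by
          have : (2 : ℝ) ^ n ≤ 2 ^ n * n := le_mul_of_one_le_right (by positivity) hn1
          exact mul_le_mul_of_nonneg_right this (by positivity)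
      _ ≤ (2 ^ n * n) * X ^ (2 * n) := mul_le_mul_of_nonneg_left h2 (by positivity)
  · have h := H27.siz_trace H6.trc n K (u i : 𝓞 K) (u i' : 𝓞 K) hn X hX (fun σ => hB i σ)
      (fun σ => hB i' σ) a b a.2 b.2
    have e : pt n K u (Sum.inr (i, i', a, b)) = Algebra.trace ℤ (𝓞 K)
      ((u i : 𝓞 K) ^ (a : ℕ) * (u i' : 𝓞 K) ^ (b : ℕ)) := rfl
    rw [e]
    refine h.trans ?_
    refine mul_le_mul_of_nonneg_right ?_ (by positivity)
    have : (1 : ℝ) ≤ 2 ^ n := one_le_pow₀ one_le_two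
    exact le_mul_of_one_le_left (by positivity) this

end Pool.Agent.LRN.H29
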