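import Pool.Agent.Helper29_LRG.AssW
import Pool.Agent.Helper39_LRG.FIB
import Pool.Agent.Helper29_LRN.SIZ
import Pool.Agent.Helper29_LRN.FAL
import Pool.Agent.Helper29_LRN.BLK
import Pool.Agent.Helper29_LRN.CNT
import Pool.Agent.Helper29_LRN.PUG
import Pool.Agent.Helper5_LRN.INR
import Pool.Agent.Helper74_LRN.KERS

/-!
# Squad LRN: few minimal counterexamples with short new units, no hypotheses
-/

set_option autoImplicit false

open Pool.Agent.LRG

namespace Pool.Agent.LRN.H29

theorem cntConcl : CntConcl :=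
  cnt siz (cls Pool.Agent.LRG.H5.unvConcl (fal H74.kerS) siz
    (blk Pool.Agent.LRN.H5.inr Pool.Agent.LRG.H74.kolConcl)
    Pool.Agent.LRG.AssB.ppwConcl Pool.Agent.LRG.H39.fib)

end Pool.Agent.LRN.H29
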