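import Pool.Agent.Helper29_LRN.FIND
import Pool.Agent.Helper29_LRN.PUG

/-!
# Squad LRN: the final theorem from its parts
-/

set_option autoImplicit false

open Polynomial NumberField Filter
open Pool.Agent.Helper85_Leo (LeopoldtAt)
open Pool.Agent.LRG

namespace Pool.Agent.LRN.H29

/-- The primitive fields: no field strictly between `ℚ` and `K`. -/
def Prim : Set (IntermediateField ℚ ℂ) :=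
  {K | ∀ E : IntermediateField ℚ K, E = ⊥ ∨ E = ⊤}

theorem smallReg_flo (r₁ r₂ : ℕ) (X : ℝ) (K : IntermediateField ℚ ℂ)
    (hK : K ∈ SizeFlds r₁ r₂ X) (hP : ∀ E : IntermediateField ℚ K, E = ⊥ ∨ E = ⊤)
    (hR : ∃ _ : NumberField K, Units.regulator K ≤ Real.log X ^ (r₁ + r₂ - 1)) :
    K ∈ NonCM r₁ r₂ ∧ K ∈ ShortUnits X ∧ K ∈ SmallReg (Real.log X ^ (r₁ + r₂ - 1)) ∧ K ∈ Prim := by
  obtain ⟨hN, h1, h2, h4, h⟩ := hK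
  obtain ⟨_, hR⟩ := hR
  refine ⟨⟨hN, h1, h2, h4⟩, ⟨hN, h⟩, ⟨hN, hR, ?_⟩, hP⟩
  exact H98.sub_rank (ugen_of_primitive hP)

theorem special3 (hDeg : LRY.DegStmt) (r₁ r₂ : ℕ)
    (h : r₁ + 2 * r₂ ≤ 8 ∨ (r₁ + 2 * r₂).Prime ∨ ∃ q : ℕ, q.Prime ∧ r₁ + 2 * r₂ = 2 * q) (p : ℕ)
    (K : IntermediateField ℚ ℂ) (hK : K ∈ NonCM r₁ r₂) (hF : K ∈ Fails p) :
    K ∈ MinFails3 p := by
  obtain ⟨hN, h1, h2, h3⟩ := hK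
  obtain ⟨hf, _, hL⟩ := hF
  refine ⟨hf, hN, hL, fun E hE h2r => ?_⟩
  exfalso
  obtain ⟨hd, hrk⟩ := H38.sig K h1 h2
  exact hDeg K E (by rw [hd]; exact h) hE h2r

/-- **The final theorem**, from its parts. -/
theorem final (hone : OneConcl) (hcnt : CntConcl) (hsrc : SrcConcl) (hRk : Rk1Stmt)
    (hLhm : LhmStmt) (hUnw : UnwStmt) (hffx : FfxStmt) (hUpp : LRY.UppY)
    (hBdy : ∀ (p : ℕ) [Fact p.Prime] (E K : IntermediateField ℚ ℂ),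
      K ∈ LRY.BadY p → E ∈ Bad p → E ≤ K → Module.finrank ℚ K ≤ 2 * Module.finrank ℚ E)
    (hure : ∀ r₁ r₂ : ℕ, 3 ≤ r₁ + r₂ → (∀ T : ℝ, (UReg r₁ r₂ T).Finite) ∧
      ∀ (p : ℕ) [Fact p.Prime] (ε : ℝ), 0 < ε → ∃ C : ℝ, ∀ T : ℝ, 0 ≤ T →
      ((UReg r₁ r₂ T ∩ Bad p).ncard : ℝ) ≤
        C * Real.exp (ε * T ^ (1 / ((r₁ : ℝ) + r₂ - 1))))
    (hFlo : FloStmt) (hDir : DirStmt) (hLow : LRY.LowY) (hDeg : LRY.DegStmt)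
    (r₁ r₂ : ℕ) (h : 3 ≤ r₁ + r₂) :
    (∀ X : ℝ, (Flds r₁ r₂ X).Finite) ∧
    (∀ K ∈ NonCM r₁ r₂, ∃ X₀ : ℝ, ∀ X : ℝ, X₀ ≤ X → K ∈ Flds r₁ r₂ X) ∧
    (∀ ε : ℝ, 0 < ε → ∃ X₀ : ℝ, ∀ X : ℝ, X₀ ≤ X →
      X ^ (((r₁ : ℝ) + 2 * r₂ + 1) / 2 - ε) ≤ ((NonCM r₁ r₂ ∩ ShortUnits X).ncard : ℝ)) ∧
    (∃ c X₀ : ℝ, 0 < c ∧ ∀ X : ℝ, X₀ ≤ X → X ^ c ≤
      ((NonCM r₁ r₂ ∩ ShortUnits X ∩ SmallReg (Real.log X ^ (r₁ + r₂ - 1)) ∩ Prim).ncard : ℝ)) ∧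
    (∃ (P : ℝ → ℕ) (S : ℝ → Set (IntermediateField ℚ ℂ)), Tendsto P atTop atTop ∧
      (∀ X : ℝ, 1 ≤ X → ∀ K ∈ ShortUnits X, Module.finrank ℚ K = r₁ + 2 * r₂ →
        ∀ p ≤ P X, K ∈ Fails p → ∃ E ∈ S X, E ≤ K ∧ E ∈ Fails p) ∧
      ∀ ε : ℝ, 0 < ε → ∃ C : ℝ, ∀ X : ℝ, 1 ≤ X →
        (S X).Finite ∧ ((S X).ncard : ℝ) ≤ C * X ^ ε ∧
        ({K | K ∈ Flds r₁ r₂ X ∧ ∃ p ≤ P X, K ∈ MinFails p}.ncard : ℝ) ≤ C * X ^ ε ∧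
        ({K | K ∈ Flds r₁ r₂ X ∧ ∃ p ≤ P X, K ∈ MinFails3 p}.ncard : ℝ) ≤
          C * X ^ (((r₁ : ℝ) + 2 * r₂) / 2 + ε)) ∧
    (r₁ + 2 * r₂ = 4 ∨ (r₁ + 2 * r₂).Prime ∨ r₁ + r₂ = 3 →
      ∀ p, ∀ K ∈ NonCM r₁ r₂, K ∈ Fails p → K ∈ MinFails p) ∧
    (r₁ + 2 * r₂ ≤ 8 ∨ (r₁ + 2 * r₂).Prime ∨ (∃ q : ℕ, q.Prime ∧ r₁ + 2 * r₂ = 2 * q) →
      ∀ p, ∀ K ∈ NonCM r₁ r₂, K ∈ Fails p → K ∈ MinFails3 p) := by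
  refine ⟨fun X => ?_, exhaust hDir r₁ r₂, fun ε hε => ?_, ?_, ?_,
    fun hs p K hK hF => special hDir r₁ r₂ hs p K hK hF,
    fun hs p K hK hF => special3 hDeg r₁ r₂ hs p K hK hF⟩
  · rw [flds_eq]
    exact fx_fin hffx (fun a b hab => (hure a b hab).1) r₁ r₂ h X
  · obtain ⟨X₀, hX₀⟩ := hLow r₁ r₂ h ε hε
    refine ⟨X₀, fun X hX => ?_⟩
    have : SizeFlds r₁ r₂ X = NonCM r₁ r₂ ∩ ShortUnits X := by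
      ext K
      constructor
      · rintro ⟨hN, h1, h2, h3, h4⟩
        exact ⟨⟨hN, h1, h2, h3⟩, hN, h4⟩
      · rintro ⟨⟨hN, h1, h2, h3⟩, _, h4⟩
        exact ⟨hN, h1, h2, h3, h4⟩
    rw [← this]
    exact hX₀ X hX
  · obtain ⟨c, X₀, hc, hX₀⟩ := hFlo r₁ r₂ h
    refine ⟨c, X₀, hc, fun X hX => (hX₀ X hX).trans ?_⟩
    have hsub : {K | K ∈ SizeFlds r₁ r₂ X ∧ (∀ E : IntermediateField ℚ K, E = ⊥ ∨ E = ⊤) ∧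
        ∃ _ : NumberField K, Units.regulator K ≤ Real.log X ^ (r₁ + r₂ - 1)} ⊆
        NonCM r₁ r₂ ∩ ShortUnits X ∩ SmallReg (Real.log X ^ (r₁ + r₂ - 1)) ∩ Prim := by
      rintro K ⟨h1, h2, h3⟩
      obtain ⟨a1, a2, a3, a4⟩ := smallReg_flo r₁ r₂ X K h1 h2 h3
      exact ⟨⟨⟨a1, a2⟩, a3⟩, a4⟩
    have hfin : (NonCM r₁ r₂ ∩ ShortUnits X ∩ SmallReg (Real.log X ^ (r₁ + r₂ - 1)) ∩
        Prim).Finite := by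
      refine (fx_fin hffx (fun a b hab => (hure a b hab).1) r₁ r₂ h X).subset ?_
      rw [← flds_eq]
      rintro K ⟨⟨⟨a1, a2⟩, a3⟩, a4⟩
      exact ⟨a1, Or.inl a2⟩
    exact_mod_cast Set.ncard_le_ncard hsub hfin
  · obtain ⟨P, S, hP, hS, hE⟩ := allOrders hone hcnt hsrc hRk hLhm hUnw hffx hUpp hBdy r₁ r₂ h
      (hure r₁ r₂ h)
    refine ⟨P, S, hP, fun X hX K hK hd => ?_, fun ε hε => ?_⟩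
    · obtain ⟨hN, hu⟩ := hK
      exact hS X hX K ⟨hN, hd, hu⟩
    · obtain ⟨C, hC⟩ := hE ε hε
      refine ⟨C, fun X hX => ?_⟩
      rw [flds_eq]
      exact hC X hX

end Pool.Agent.LRN.H29
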