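import Pool.Agent.LRN.Stmts
import Pool.Agent.Helper49_LRG.POL
import Pool.Agent.Helper29_LRN.GEN

/-!
# Squad LRN, row ONW: few fields with a short new unit (after helper41, helper62)
-/

set_option autoImplicit false

open NumberField NumberField.Units Module
open Pool.Agent.LRG

namespace Pool.Agent.LRN.H29

theorem gnu_new (n : ℕ) (K : IntermediateField ℚ ℂ) [NumberField K] (u : Fin 1 → (𝓞 K)ˣ) (X : ℝ)
    (hfin : Module.finrank ℚ K = n) (hnew : IsNew (u 0)) (hind : Indep u) (hbdd : Bdd u X) :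
    IntermediateField.adjoin ℚ {(((u 0 : 𝓞 K) : K) : ℂ)} = K ∧
      (((u 0 : 𝓞 K) : K) : ℂ) ∈ D.AlgInt n X := by
  set y : K := ((u 0 : 𝓞 K) : K) with hy
  have hyint : IsIntegral ℤ y := RingOfIntegers.isIntegral_coe _
  have htop : IntermediateField.adjoin ℚ {y} = ⊤ :=
    gen_new hnew (not_fin_of_indep hind 0)
  have hadj : IntermediateField.adjoin ℚ {((y : K) : ℂ)} = K := by
    have h1 := IntermediateField.lift_adjoin_simple (F := ℚ) (E := ℂ) K y
    have h3 : ∀ (A B : Algebra ℚ K), A = B →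
        @IntermediateField.adjoin ℚ _ K _ A {y} = ⊤ → @IntermediateField.adjoin ℚ _ K _ B {y} = ⊤ := by
      intro A B h h'
      subst h
      exact h'
    have h2 : IntermediateField.lift (IntermediateField.adjoin ℚ {y}) = K := by
      rw [h3 _ _ (Subsingleton.elim _ _) htop]
      exact IntermediateField.lift_top ℚ K
    exact h1.symm.trans h2
  have hmin : minpoly ℚ ((y : K) : ℂ) = minpoly ℚ y :=
    minpoly.algebraMap_eq (algebraMap K ℂ).injective y
  have hint : IsIntegral ℤ ((y : K) : ℂ) := hyint.algebraMap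
  refine ⟨hadj, hint, ?_, ?_⟩
  · have hQ : IsIntegral ℚ ((y : K) : ℂ) := hint.tower_top
    rw [← IntermediateField.adjoin.finrank hQ, hadj, hfin]
  · intro z hz
    rw [hmin] at hz
    have hr := NumberField.Embeddings.range_eval_eq_rootSet_minpoly K ℂ y
    have hmem : z ∈ (minpoly ℚ y).rootSet ℂ := by
      rw [Polynomial.mem_rootSet]
      exact ⟨minpoly.ne_zero (hyint.tower_top), hz⟩
    rw [← hr] at hmem
    obtain ⟨σ, hσ⟩ := hmem
    rw [← hσ]
    exact hbdd 0 σ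


theorem onw : OneConcl := by
  intro n hn
  obtain ⟨c, hc⟩ : ∃ c : ℝ, c = max ((n : ℝ) * 2 ^ (n * (n + 2))) ((n : ℝ) ^ 2) := ⟨_, rfl⟩
  refine ⟨c, fun X hX => ?_⟩
  obtain ⟨hfin, hcard⟩ := H49.pol n X hn.le hX
  have hsub : OneNew n X ⊆ (fun x : ℂ => IntermediateField.adjoin ℚ {x}) '' D.AlgInt n X := by
    rintro K ⟨hK, hd, u, hnew, hu, hb⟩
    obtain ⟨h1, h2⟩ := gnu_new n K u X hd hnew hu hb
    exact ⟨_, h2, h1⟩
  have himg := hfin.image (fun x : ℂ => IntermediateField.adjoin ℚ {x})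
  refine ⟨himg.subset hsub, ?_⟩
  have h1 : (OneNew n X).ncard ≤ (D.AlgInt n X).ncard :=
    (Set.ncard_le_ncard hsub himg).trans (Set.ncard_image_le hfin)
  have h2 : ((OneNew n X).ncard : ℝ) ≤ n * (2 ^ (n + 2) * X ^ n) ^ n :=
    le_trans (by exact_mod_cast h1) hcard
  refine h2.trans ?_
  have h3 : (n : ℝ) * (2 ^ (n + 2) * X ^ n) ^ n = ((n : ℝ) * 2 ^ (n * (n + 2))) * X ^ (n ^ 2) := by
    rw [mul_pow, ← pow_mul, ← pow_mul, mul_comm (n + 2) n, ← sq]
    ring
  rw [h3]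
  have hX0 : 0 ≤ X := by linarith
  have h4 : X ^ (n ^ 2) ≤ X ^ c := by
    rw [← Real.rpow_natCast]
    apply Real.rpow_le_rpow_of_exponent_le hX
    rw [hc]
    push_cast
    exact le_max_right _ _
  have h5 : (n : ℝ) * 2 ^ (n * (n + 2)) ≤ c := by rw [hc]; exact le_max_left _ _
  have h6 : (0 : ℝ) ≤ c := le_trans (by positivity) h5
  exact mul_le_mul h5 h4 (by positivity) h6

end Pool.Agent.LRN.H29
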