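import Pool.Agent.Helper29_LRN.AssN
import Pool.Agent.Helper29_LRN.ONW
import Pool.Agent.Helper29_LRN.FINE
import Pool.Agent.Helper5_LRN.SNU
import Pool.Agent.Helper5_LRN.RGS
import Pool.Agent.Helper98_LRN.RK1S
import Pool.Agent.Helper98_LRN.FFX
import Pool.Agent.Helper98_LRN.URE
import Pool.Agent.Helper98_LRN.UNW
import Pool.Agent.Helper98_LRN.FLO
import Pool.Agent.Helper69_LRN.LWU
import Pool.Agent.Helper69_LRN.SRC
import Pool.Agent.Helper74_LRN.DIR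
import Pool.Agent.Helper74_LRN.MCX
import Pool.Agent.Helper85_LRS.SBF
import Pool.Agent.Helper90_LRS.AVE
import Pool.Agent.Helper88_LRS.AVG
import Pool.Agent.Helper67_LRS.MPL
import Pool.Agent.Helper97_LRS.PSI
import Pool.Agent.Helper7_LRS.FRK
import Pool.Agent.Helper7_LRS.EXT
import Pool.Agent.Helper48_LRY.CUB
import Pool.Agent.Helper97_LRY.QPO
import Pool.Agent.Helper82_LRY.RSF
import Pool.Agent.Helper78_LRY.QOV
import Pool.Agent.Helper10_LRY.DEG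
import Pool.Agent.Helper39_LRY.BDY
import Pool.Agent.Helper77_LRY.FCQ
import Pool.Agent.Helper38_LRY.SPQ
import Pool.Agent.Helper24_LRY.IRQ
import Pool.Agent.Helper76_LRY.RTQ
import Pool.Agent.Helper45_LRY.EMQ
import Pool.Agent.Helper81_LRY.PLQ
import Pool.Agent.Helper76_LRY.UNQ
import Pool.Agent.Helper27_LRY.SZQ
import Pool.Agent.Helper52_LRY.INQ
import Pool.Agent.Helper4_LRY.NCQ
import Pool.Agent.Helper41_LRY.FFQ
import Pool.Agent.Helper95_LRY.THQ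
import Pool.Agent.Helper87_LRY.PDQ
import Pool.Agent.Helper90_LRY.CPQ
import Pool.Agent.Helper74_LRY.CFQ
import Pool.Agent.Helper87_LRY.LWQ

/-!
# Squad LRN: assembly
-/

set_option autoImplicit false

open Pool.Agent.LRG

namespace Pool.Agent.LRN.H29

theorem snuStmt : SnuStmt :=
  Pool.Agent.LRN.H5.snu (Pool.Agent.LRS.H88.avg Pool.Agent.LRS.H85.sbf Pool.Agent.LRS.H90.ave)
    Pool.Agent.LRS.H67.mpl Pool.Agent.LRS.H97.psi Pool.Agent.LRS.H7.frk Pool.Agent.LRS.H7.ext_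

theorem srcConcl (hUnr : UnrStmt) : SrcConcl :=
  Pool.Agent.LRN.H69.src H74.kerS H98.rk1Stmt snuStmt H74.mcx hUnr

theorem floStmt : FloStmt :=
  H98.flo H69.lwu (Pool.Agent.LRN.H5.rgs Pool.Agent.LRN.H5.inr) H98.ffx

theorem ureConcl (r₁ r₂ : ℕ) (h : 3 ≤ r₁ + r₂) : (∀ T : ℝ, (UReg r₁ r₂ T).Finite) ∧
      ∀ (p : ℕ) [Fact p.Prime] (ε : ℝ), 0 < ε → ∃ C : ℝ, ∀ T : ℝ, 0 ≤ T →
      ((UReg r₁ r₂ T ∩ Bad p).ncard : ℝ) ≤
        C * Real.exp (ε * T ^ (1 / ((r₁ : ℝ) + r₂ - 1))) :=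
  H98.ure onw H98.unw Pool.Agent.LRG.H29.regConcl cntConcl r₁ r₂ h

theorem cubConcl (hCab : LRY.CabStmt) : LRY.CubConcl := LRY.H48.cub hCab

theorem qovConcl (hCab : LRY.CabStmt) : LRY.QovConcl :=
  LRY.H78.qov hCab (cubConcl hCab) LRY.H97.qpo LRY.H82.rsf

theorem uppY (hCab : LRY.CabStmt) (hUsy : LRY.UsyStmt) : LRY.UppY :=
  hUsy (qovConcl hCab) LRY.H82.rsf

theorem unqConcl : LRY.UnqConcl := LRY.H76.unq LRY.H77.fcq

theorem ffqConcl : LRY.FfqConcl :=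
  LRY.H41.ffq LRY.H77.fcq LRY.H38.spq LRY.H24.irq LRY.H76.rtq LRY.H45.emq

theorem sfqConcl (hSfq : LRY.SfqStmt) : LRY.SfqConcl :=
  hSfq LRY.H81.plq unqConcl LRY.H27.szq LRY.H52.inq LRY.H4.ncq LRY.H38.spq

theorem cfqConcl (hCab : LRY.CabStmt) (hSfq : LRY.SfqStmt) : LRY.CfqConcl :=
  LRY.H74.cfqStmt ffqConcl (sfqConcl hSfq) unqConcl LRY.H27.szq LRY.H95.thq (LRY.H87.pdq LRY.H77.fcq)
    LRY.H77.fcq LRY.H90.cpq (cubConcl hCab)

theorem lowY (hCab : LRY.CabStmt) (hSfq : LRY.SfqStmt) : LRY.LowY :=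
  LRY.H87.lwq (cfqConcl hCab hSfq)

theorem bdyConcl (p : ℕ) [Fact p.Prime] (E K : IntermediateField ℚ ℂ) :
    K ∈ LRY.BadY p → E ∈ Bad p → E ≤ K → Module.finrank ℚ K ≤ 2 * Module.finrank ℚ E :=
  LRY.H39.bdy LRY.H82.rsf p E K

end Pool.Agent.LRN.H29
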