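import Pool.Agent.Helper16_LRG.CLS
import Pool.Agent.Helper29_LRN.GEN
import Pool.Agent.LRN.Defs

/-!
# Squad LRN: the bound in one class (after helper16)
-/

set_option autoImplicit false

open Polynomial NumberField
open Pool.Agent.Helper85_Leo (LeopoldtAt)
open Pool.Agent.LRG

namespace Pool.Agent.LRN.H29

/-- The minimal counterexamples with short new units whose point lies in the class of `z₀` modulo
`p ^ 3`, with the constant coefficients `e`. -/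
def ClsNew (p : ℕ) [Fact p.Prime] (n r : ℕ) (z₀ : Ix n r → ℤ) (e : Fin r → ℤ) (X : ℝ) :
    Set (IntermediateField ℚ ℂ) :=
  {K | ∃ (_ : NumberField K) (u : Fin r → (𝓞 K)ˣ), Module.finrank ℚ K = n ∧
    MaxNew u ∧ Bdd u X ∧ cst K u = e ∧
    (∀ s, (p : ℤ) ^ 3 ∣ pt n K u s - z₀ s) ∧ MinCex K p}

/-- `K` is a bad field in the class with the scaled point `x`. -/
def Q (p : ℕ) [Fact p.Prime] (n r : ℕ) (z₀ : Ix n r → ℤ) (e : Fin r → ℤ) (X : ℝ)
    (K : IntermediateField ℚ ℂ) (x : Ix n r → ℤ) : Prop :=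
  ∃ (_ : NumberField K) (u : Fin r → (𝓞 K)ˣ), Module.finrank ℚ K = n ∧
    MaxNew u ∧ Bdd u X ∧ cst K u = e ∧
    (∀ s, pt n K u s = z₀ s + (p : ℤ) ^ 2 * x s) ∧ (∀ s, (p : ℤ) ∣ x s) ∧ MinCex K p

theorem exists_Q {p : ℕ} [Fact p.Prime] {n r : ℕ} {z₀ : Ix n r → ℤ} {e : Fin r → ℤ} {X : ℝ}
    {K : IntermediateField ℚ ℂ} (h : K ∈ ClsNew p n r z₀ e X) : ∃ x, Q p n r z₀ e X K x := by
  obtain ⟨hK, u, h1, h2, h5, h6, h7, h8⟩ := h
  choose c hc using h7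
  refine ⟨fun s => (p : ℤ) * c s, hK, u, h1, h2, h5, h6, fun s => ?_, fun s => ?_, h8⟩
  · have := hc s
    show pt n K u s = z₀ s + (p : ℤ) ^ 2 * ((p : ℤ) * c s)
    linear_combination this
  · exact Dvd.intro _ rfl

/-- every fibre has at most `n` elements -/
theorem fibre (hF : FibStmt) (p : ℕ) [Fact p.Prime] (n r : ℕ) (hr : 0 < r)
    (z₀ : Ix n r → ℤ) (e : Fin r → ℤ) (X : ℝ) (x : Ix n r → ℤ) :
    {K | Q p n r z₀ e X K x}.encard ≤ n := by
  refine le_trans (Set.encard_le_encard ?_) (hF n (chi n (e ⟨0, hr⟩)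
    (fun j => z₀ (Sum.inl (⟨0, hr⟩, j)) + (p : ℤ) ^ 2 * x (Sum.inl (⟨0, hr⟩, j)))))
  rintro K ⟨hK, u, h1, h2, h5, h6, h7, h8, h9⟩
  have hgen := gen h2.new h2.ind ⟨0, hr⟩
  refine ⟨hK, h1, (u ⟨0, hr⟩ : 𝓞 K), ?_, hgen⟩
  have hdeg := H16.natDegree_min (u ⟨0, hr⟩ : 𝓞 K) hgen
  have hmon : (minpoly ℤ (u ⟨0, hr⟩ : 𝓞 K)).Monic :=
    minpoly.monic (RingOfIntegers.isIntegral _)
  have hn : 0 < n := by
    rw [← h1]
    exact Module.finrank_pos
  have hpt : ∀ j : Fin (n - 1), (minpoly ℤ (u ⟨0, hr⟩ : 𝓞 K)).coeff (j.1 + 1)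
      = z₀ (Sum.inl (⟨0, hr⟩, j)) + (p : ℤ) ^ 2 * x (Sum.inl (⟨0, hr⟩, j)) := by
    intro j
    exact h7 (Sum.inl (⟨0, hr⟩, j))
  have hc0 : (minpoly ℤ (u ⟨0, hr⟩ : 𝓞 K)).coeff 0 = e ⟨0, hr⟩ := congrFun h6 ⟨0, hr⟩
  rw [h1] at hdeg
  ext m
  unfold chi
  rw [coeff_add, coeff_add, finsetSum_coeff, coeff_X_pow, coeff_C]
  rcases Nat.eq_zero_or_pos m with hm | hm
  · subst hm
    rw [hc0]
    simp [hn.ne]
  · rcases lt_trichotomy m n with hmn | hmn | hmn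
    · have h10 := hpt ⟨m - 1, by omega⟩
      have h11 : m - 1 + 1 = m := by omega
      simp only [h11] at h10
      rw [h10, Finset.sum_eq_single (⟨m - 1, by omega⟩ : Fin (n - 1))]
      · rw [coeff_C_mul, coeff_X_pow]
        simp [h11, hmn.ne, hm.ne']
      · intro b _ hb
        rw [coeff_C_mul, coeff_X_pow, if_neg, mul_zero]
        intro h12
        apply hb
        apply Fin.ext
        show b.1 = m - 1
        omega
      · intro h12
        exact absurd (Finset.mem_univ _) h12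
    · subst hmn
      have h10 : (minpoly ℤ (u ⟨0, hr⟩ : 𝓞 K)).coeff m = 1 := by
        have := hmon.coeff_natDegree
        rwa [hdeg] at this
      rw [h10, Finset.sum_eq_zero]
      · simp [hm.ne']
      · intro b _
        rw [coeff_C_mul, coeff_X_pow, if_neg, mul_zero]
        have := b.2
        omega
    · rw [coeff_eq_zero_of_natDegree_lt (by rw [hdeg]; exact hmn), Finset.sum_eq_zero]
      · simp [hm.ne', hmn.ne']
      · intro b _
        rw [coeff_C_mul, coeff_X_pow, if_neg, mul_zero]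
        have := b.2
        omega

/-- the size of the scaled point -/
theorem size (hS : SizConcl) (p : ℕ) [Fact p.Prime] (n r : ℕ) (hn : 1 < n)
    (z₀ : Ix n r → ℤ) (e : Fin r → ℤ) (X : ℝ) (hX : 1 ≤ X) (K : IntermediateField ℚ ℂ)
    (x : Ix n r → ℤ) (h : Q p n r z₀ e X K x) (s : Ix n r) :
    |(x s : ℝ)| ≤ (2 ^ n * n + ∑ s, |(z₀ s : ℝ)|) * X ^ (2 * n) := by
  obtain ⟨hK, u, h1, h2, h5, h6, h7, h8, h9⟩ := h
  have hb := (hS n r K u X h1 hX hn h2.new h2.ind h5).2 s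
  have hp : (1 : ℝ) ≤ (p : ℝ) ^ 2 := by
    have : (1 : ℝ) ≤ p := by exact_mod_cast (Fact.out : p.Prime).one_le
    nlinarith
  have he : (p : ℝ) ^ 2 * (x s : ℝ) = (pt n K u s : ℝ) - (z₀ s : ℝ) := by
    rw [h7 s]
    push_cast
    ring
  have hX2 : (1 : ℝ) ≤ X ^ (2 * n) := one_le_pow₀ hX
  have hz : |(z₀ s : ℝ)| ≤ ∑ s, |(z₀ s : ℝ)| :=
    Finset.single_le_sum (f := fun s => |(z₀ s : ℝ)|) (fun i _ => abs_nonneg _)
      (Finset.mem_univ s)
  have hz0 : (0 : ℝ) ≤ ∑ s, |(z₀ s : ℝ)| := le_trans (abs_nonneg _) hz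
  calc |(x s : ℝ)| ≤ (p : ℝ) ^ 2 * |(x s : ℝ)| := le_mul_of_one_le_left (abs_nonneg _) hp
    _ = |(p : ℝ) ^ 2 * (x s : ℝ)| := by
        rw [abs_mul, abs_of_nonneg (by positivity : (0 : ℝ) ≤ (p : ℝ) ^ 2)]
    _ = |(pt n K u s : ℝ) - (z₀ s : ℝ)| := by rw [he]
    _ ≤ |(pt n K u s : ℝ)| + |(z₀ s : ℝ)| := abs_sub _ _
    _ ≤ (2 ^ n * n) * X ^ (2 * n) + (∑ s, |(z₀ s : ℝ)|) * X ^ (2 * n) :=
        add_le_add hb (le_trans hz (le_mul_of_one_le_right hz0 hX2))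
    _ = (2 ^ n * n + ∑ s, |(z₀ s : ℝ)|) * X ^ (2 * n) := by ring

/-- the contradiction in the block argument -/
theorem block (hG : FalConcl) (p : ℕ) [Fact p.Prime] (n r : ℕ) (hr : 0 < r)
    (z₀ : Ix n r → ℤ) (e : Fin r → ℤ) (X : ℝ) (M : ℕ) (F : MvPowerSeries (Ix n r) ℤ_[p])
    (hM : 0 < M) (hU : Univ p z₀ e M F) (x : Ix n r → ℤ) (K : IntermediateField ℚ ℂ)
    (h : Q p n r z₀ e X K x) : VanZ p F (fun s => (x s : ℤ_[p])) := by
  obtain ⟨hK, u, h1, h2, h5, h6, h7, h8, h9⟩ := h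
  exact hG p n r z₀ e M F hM hU K u x h1 hr h2 h6 h7 h8 h9

/-- at most `K₀` fields on an arc -/
theorem arc (n r : ℕ) (K₀ : ℕ)
    (hB : ∀ (p : ℕ) [Fact p.Prime]
  (z₀ : Ix n r → ℤ) (e : Fin r → ℤ) (M : ℕ) (F : MvPowerSeries (Ix n r) ℤ_[p]),
  0 < M → Univ p z₀ e M F →
  ∀ (ξ : Ix n r → PowerSeries ℤ_[p]), (∀ s, AlgT (ξ s)) → VanT p F ξ →
  ∀ (κ : Type) (K : κ → IntermediateField ℚ ℂ) (_hK : ∀ k, NumberField (K k))
    (u : ∀ k, Fin r → (𝓞 (K k))ˣ) (x : κ → Ix n r → ℤ) (k₀ : κ),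
    Function.Injective K → (∀ k, Module.finrank ℚ (K k) = n) →
    (∀ k i, IsNew (u k i)) → (∀ k, Indep (u k)) → (∀ k, cst (K k) (u k) = e) →
    (∀ k s, pt n (K k) (u k) s = z₀ s + (p : ℤ) ^ 2 * x k s) →
    (∀ k s, (p : ℤ) ∣ x k s) →
    (∀ s, PowerSeries.constantCoeff (ξ s) = (x k₀ s : ℤ_[p])) →
    (∀ q : MvPolynomial (Ix n r) ℤ, MvPolynomial.aeval ξ q = 0 →
      ∀ k, MvPolynomial.eval (x k) q = 0) →
    (Set.range K).encard ≤ K₀)
    (p : ℕ) [Fact p.Prime]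
    (z₀ : Ix n r → ℤ) (e : Fin r → ℤ) (X : ℝ) (M : ℕ) (F : MvPowerSeries (Ix n r) ℤ_[p])
    (hM : 0 < M) (hU : Univ p z₀ e M F) (P : Finset (Ix n r → ℤ))
    (g : (Ix n r → ℤ) → IntermediateField ℚ ℂ)
    (hg : ∀ y ∈ P, Q p n r z₀ e X (g y) y) (hinj : Set.InjOn g (P : Set (Ix n r → ℤ)))
    (z : Fin (K₀ + 1) → Ix n r → ℤ) (x₀ : Ix n r → ℤ)
    (ξ : Ix n r → PowerSeries ℤ_[p]) (hz : Function.Injective z) (hzP : ∀ k, z k ∈ P)
    (hx₀ : x₀ ∈ P) (hc : ∀ i, PowerSeries.constantCoeff (ξ i) = (x₀ i : ℤ_[p]))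
    (ha : ∀ i, AlgT (ξ i)) (hv : VanT p F ξ)
    (hq : ∀ q : MvPolynomial (Ix n r) ℤ, MvPolynomial.aeval ξ q = 0 →
      (∀ k, MvPolynomial.eval (z k) q = 0) ∧ MvPolynomial.eval x₀ q = 0) : False := by
  have hmem : ∀ y : {y : Ix n r → ℤ // (∃ k, z k = y) ∨ y = x₀}, y.1 ∈ P := by
    rintro ⟨y, ⟨k, rfl⟩ | rfl⟩
    · exact hzP k
    · exact hx₀
  choose hK u h1 h2 h5 h6 h7 h8 h9 using
    (fun y : {y : Ix n r → ℤ // (∃ k, z k = y) ∨ y = x₀} => hg y.1 (hmem y))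
  have hinj' : Function.Injective
      (fun y : {y : Ix n r → ℤ // (∃ k, z k = y) ∨ y = x₀} => g y.1) := by
    intro a b hab
    exact Subtype.ext (hinj (hmem a) (hmem b) hab)
  have hfin := hB p z₀ e M F hM hU ξ ha hv
    {y : Ix n r → ℤ // (∃ k, z k = y) ∨ y = x₀} (fun y => g y.1) hK u (fun y => y.1)
    ⟨x₀, Or.inr rfl⟩ hinj' h1 (fun k => (h2 k).new) (fun k => (h2 k).ind) h6 h7 h8 hc
    (by
      rintro q hq0 ⟨y, ⟨k, rfl⟩ | rfl⟩
      · exact (hq q hq0).1 k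
      · exact (hq q hq0).2)
  have hinj2 : Function.Injective
      (fun k : Fin (K₀ + 1) => g (z k)) := by
    intro a b hab
    exact hz (hinj (hzP a) (hzP b) hab)
  have h10 : ENat.card (Fin (K₀ + 1)) ≤ (Set.range (fun k : Fin (K₀ + 1) => g (z k))).encard :=
    hinj2.encard_range
  have h11 : (Set.range (fun k : Fin (K₀ + 1) => g (z k))).encard
      ≤ (Set.range (fun y : {y : Ix n r → ℤ // (∃ k, z k = y) ∨ y = x₀} => g y.1)).encard := by
    apply Set.encard_le_encard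
    rintro _ ⟨k, rfl⟩
    exact ⟨⟨z k, Or.inl ⟨k, rfl⟩⟩, rfl⟩
  have h12 := le_trans h10 (le_trans h11 hfin)
  rw [ENat.card_eq_coe_fintype_card, Fintype.card_fin] at h12
  have h13 : K₀ + 1 ≤ K₀ := by exact_mod_cast h12
  omega

/-- The bound in one class. -/
theorem cls (hUnv : UnvConcl) (hFal : FalConcl) (hSiz : SizConcl) (hBlk : BlkConcl)
    (hPpw : PpwConcl) (hFib : FibStmt) (p : ℕ) [Fact p.Prime] (n r : ℕ) (z₀ : Ix n r → ℤ)
    (e : Fin r → ℤ) (ε : ℝ) (hε : 0 < ε) (hr : 0 < r) (hn : 1 < n) :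
    ∃ C : ℝ, ∀ X : ℝ, 1 ≤ X → (ClsNew p n r z₀ e X).Finite ∧
      ((ClsNew p n r z₀ e X).ncard : ℝ) ≤ C * X ^ ε := by
  by_cases he : ∀ i, e i = 1 ∨ e i = -1
  swap
  · refine ⟨0, fun X hX => ?_⟩
    have hempty : ClsNew p n r z₀ e X = ∅ := by
      rw [Set.eq_empty_iff_forall_notMem]
      rintro K ⟨hK, u, h1, h2, h5, h6, h7, h8⟩
      apply he
      intro i
      have := (hSiz n r K u X h1 hX hn h2.new h2.ind h5).1 i
      rwa [h6] at this
    rw [hempty]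
    simp
  obtain ⟨M, F, hM, hU⟩ := hUnv p n r z₀ e he (by omega)
  obtain ⟨K₀, hB⟩ := hBlk n r hr hn
  obtain ⟨B, hPB⟩ := hPpw p (Ix n r) F (ε / (2 * n)) (by positivity) (K₀ + 1)
  set A : ℝ := 2 ^ n * n + ∑ s, |(z₀ s : ℝ)| with hA
  have hA1 : 1 ≤ A := by
    have h1 : (1 : ℝ) ≤ 2 ^ n := one_le_pow₀ (by norm_num)
    have h2 : (1 : ℝ) ≤ n := by exact_mod_cast hn.le
    have h3 : (0 : ℝ) ≤ ∑ s, |(z₀ s : ℝ)| := Finset.sum_nonneg (fun i _ => abs_nonneg _)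
    nlinarith
  refine ⟨n * (B * A ^ (ε / (2 * n))), fun X hX => ?_⟩
  have hXp : (0 : ℝ) < X := lt_of_lt_of_le one_pos hX
  have hX' : 1 ≤ A * X ^ (2 * n) := one_le_mul_of_one_le_of_one_le hA1 (one_le_pow₀ hX)
  have hex : ∀ K : IntermediateField ℚ ℂ, ∃ x : Ix n r → ℤ,
      K ∈ ClsNew p n r z₀ e X → Q p n r z₀ e X K x := by
    intro K
    by_cases hK : K ∈ ClsNew p n r z₀ e X
    · obtain ⟨x, hx⟩ := exists_Q hK
      exact ⟨x, fun _ => hx⟩
    · exact ⟨0, fun h => absurd h hK⟩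
  choose x hx using hex
  have himg : (x '' ClsNew p n r z₀ e X).Finite := by
    refine (H16.finite_box (σ := Ix n r) (A * X ^ (2 * n))).subset ?_
    rintro _ ⟨K, hK, rfl⟩
    intro s
    exact size hSiz p n r hn z₀ e X hX K (x K) (hx K hK) s
  have hfib : ∀ y : Ix n r → ℤ, (ClsNew p n r z₀ e X ∩ x ⁻¹' {y}).encard ≤ n := by
    intro y
    refine le_trans (Set.encard_le_encard ?_) (fibre hFib p n r hr z₀ e X y)
    rintro K ⟨hK, hy⟩
    have := hx K hK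
    rw [hy] at this
    exact this
  have hfin : (ClsNew p n r z₀ e X).Finite := by
    refine Set.Finite.of_finite_fibers x himg (fun y _ => ?_)
    exact Set.finite_of_encard_le_coe (hfib y)
  refine ⟨hfin, ?_⟩
  classical
  have hcard : hfin.toFinset.card ≤ n * (hfin.toFinset.image x).card := by
    refine Finset.card_le_mul_card_image _ n (fun y _ => ?_)
    have h1 : ((hfin.toFinset.filter (fun a => x a = y) : Finset (IntermediateField ℚ ℂ)) :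
        Set (IntermediateField ℚ ℂ)) = ClsNew p n r z₀ e X ∩ x ⁻¹' {y} := by
      ext K
      simp
    have h2 := hfib y
    rw [← h1, Set.encard_coe_eq_coe_finsetCard] at h2
    exact_mod_cast h2
  have hPc : ((hfin.toFinset.image x).card : ℝ)
      ≤ B * (A * X ^ (2 * n)) ^ (ε / (2 * n)) := by
    by_contra hcon
    push Not at hcon
    have hmemP : ∀ y ∈ hfin.toFinset.image x, ∃ K, K ∈ ClsNew p n r z₀ e X ∧ x K = y := by
      intro y hy
      rw [Finset.mem_image] at hy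
      obtain ⟨K, hK, hKy⟩ := hy
      exact ⟨K, hfin.mem_toFinset.mp hK, hKy⟩
    obtain ⟨z, x₀, ξ, hz, hzP, hx₀, hc, ha, hv, hq⟩ := hPB (A * X ^ (2 * n)) hX'
      (hfin.toFinset.image x) (by
        intro y hy
        obtain ⟨K, hK, rfl⟩ := hmemP y hy
        refine ⟨fun s => size hSiz p n r hn z₀ e X hX K (x K) (hx K hK) s, ?_, ?_⟩
        · obtain ⟨_, _, _, _, _, _, _, h8, _⟩ := hx K hK
          exact h8
        · exact block hFal p n r hr z₀ e X M F hM hU (x K) K (hx K hK)) hcon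
    have hgex : ∀ y : Ix n r → ℤ, ∃ K : IntermediateField ℚ ℂ,
        y ∈ hfin.toFinset.image x → K ∈ ClsNew p n r z₀ e X ∧ x K = y := by
      intro y
      by_cases hy : y ∈ hfin.toFinset.image x
      · obtain ⟨K, hK⟩ := hmemP y hy
        exact ⟨K, fun _ => hK⟩
      · exact ⟨⊥, fun h => absurd h hy⟩
    choose g hg using hgex
    refine arc n r K₀ hB p z₀ e X M F hM hU (hfin.toFinset.image x) g ?_ ?_ z x₀ ξ hz hzP hx₀
      hc ha hv hq
    · intro y hy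
      obtain ⟨h1, h2⟩ := hg y hy
      have := hx (g y) h1
      rwa [h2] at this
    · intro a haP b hbP hab
      rw [← (hg a haP).2, ← (hg b hbP).2, hab]
  have hn0 : (0 : ℝ) < n := by
    have : 0 < n := by omega
    exact_mod_cast this
  have hpow : (A * X ^ (2 * n)) ^ (ε / (2 * n)) = A ^ (ε / (2 * n)) * X ^ ε := by
    rw [Real.mul_rpow (by linarith) (by positivity), ← Real.rpow_natCast_mul hXp.le]
    congr 2
    push_cast
    field_simp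
  rw [Set.ncard_eq_toFinset_card _ hfin]
  calc (hfin.toFinset.card : ℝ) ≤ ((n * (hfin.toFinset.image x).card : ℕ) : ℝ) := by
        exact_mod_cast hcard
    _ = n * ((hfin.toFinset.image x).card : ℝ) := by push_cast; ring
    _ ≤ n * (B * (A * X ^ (2 * n)) ^ (ε / (2 * n))) :=
        mul_le_mul_of_nonneg_left hPc hn0.le
    _ = n * (B * A ^ (ε / (2 * n))) * X ^ ε := by rw [hpow]; ring

end Pool.Agent.LRN.H29
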