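import Pool.Agent.Helper29_LRN.FINS

/-!
# Squad LRN: the fields of a signature in the order by the size of the units
-/

set_option autoImplicit false

open Polynomial NumberField Filter
open Pool.Agent.Helper85_Leo (LeopoldtAt)
open Pool.Agent.LRG

namespace Pool.Agent.LRN.H29

/-- The number fields inside `ℂ` for which Leopoldt's conjecture fails at `p`, while it holds for all
proper subfields of unit rank at least `2`. -/
def MinFails (p : ℕ) : Set (IntermediateField ℚ ℂ) :=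
  {K | ∃ (_ : Fact p.Prime) (_ : NumberField K), ¬ LeopoldtAt K p ∧
    ∀ E : IntermediateField ℚ K, E ≠ ⊤ → 2 ≤ Units.rank E → LeopoldtAt E p}

/-- A subfield of `K` inside `ℂ` as an intermediate field. -/
theorem exists_sub (K E : IntermediateField ℚ ℂ) [NumberField K] (h : E ≤ K) (hne : E ≠ K) :
    ∃ E' : IntermediateField ℚ K, E' ≠ ⊤ ∧ Nonempty (E →+* E') := by
  refine ⟨E.comap (algebraMap K ℂ).toRatAlgHom, ?_, ⟨?_⟩⟩
  · intro ht
    apply hne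
    refine le_antisymm h ?_
    intro x hx
    have h1 : (⟨x, hx⟩ : K) ∈ E.comap (algebraMap K ℂ).toRatAlgHom := by
      rw [ht]
      exact IntermediateField.mem_top
    exact h1
  · exact
      { toFun := fun x => ⟨⟨x.1, h x.2⟩, x.2⟩
        map_one' := rfl
        map_mul' := fun _ _ => rfl
        map_zero' := rfl
        map_add' := fun _ _ => rfl }

theorem sizeFlds_sub (r₁ r₂ : ℕ) (X : ℝ) : SizeFlds r₁ r₂ X ⊆ UnitFlds (r₁ + 2 * r₂) X := by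
  rintro K ⟨i, h1, h2, -, u, hu, hb⟩
  exact ⟨i, (H38.sig K h1 h2).1, u, hu, hb⟩

/-- A member of `S` inside a minimal counterexample is the field itself. -/
theorem eq_of_minFails (hRk : Rk1Stmt) (hLhm : LhmStmt) (p : ℕ) (K E : IntermediateField ℚ ℂ)
    (hK : K ∈ MinFails p) (hE : E ∈ MinB p) (h : E ≤ K) : E = K := by
  obtain ⟨hf, hN, hL, hS⟩ := hK
  obtain ⟨_, hNE, hME, -⟩ := hE
  by_contra hne
  obtain ⟨E', h1, ⟨f⟩⟩ := exists_sub K E h hne
  apply hME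
  refine hLhm p E E' f ?_
  by_cases h2 : 2 ≤ Units.rank E'
  · exact hS E' h1 h2
  · exact hRk p E' (by omega)

/-- the full statement for the order by the size of the units -/
theorem sizeOrder (hone : OneConcl) (hcnt : CntConcl) (hsrc : SrcConcl) (hRk : Rk1Stmt)
    (hLhm : LhmStmt) (r₁ r₂ : ℕ) :
    ∃ P : ℝ → ℕ, Tendsto P atTop atTop ∧ ∀ ε : ℝ, 0 < ε → ∃ C : ℝ, ∀ X : ℝ, 1 ≤ X →
      ({K | K ∈ SizeFlds r₁ r₂ X ∧ ∃ p ≤ P X, K ∈ MinFails p}.ncard : ℝ) ≤ C * X ^ ε ∧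
      ∃ S : Set (IntermediateField ℚ ℂ), S.Finite ∧ (S.ncard : ℝ) ≤ C * X ^ ε ∧
        ∀ K ∈ UnitFlds (r₁ + 2 * r₂) X, ∀ p ≤ P X, K ∈ Fails p → ∃ E ∈ S, E ≤ K ∧ E ∈ Fails p := by
  obtain ⟨P, hP, hPb⟩ := sources hone hcnt hsrc (r₁ + 2 * r₂)
  refine ⟨P, hP, fun ε hε => ?_⟩
  obtain ⟨C, hC⟩ := hPb ε hε
  refine ⟨C, fun X hX => ?_⟩
  obtain ⟨S, hS, hSc, hSm⟩ := hC X hX
  constructor
  · refine le_trans ?_ hSc
    have hsub : {K | K ∈ SizeFlds r₁ r₂ X ∧ ∃ p ≤ P X, K ∈ MinFails p} ⊆ S := by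
      rintro K ⟨hK, p, hp, hM⟩
      obtain ⟨hf, hN, hL, h4⟩ := hM
      obtain ⟨E, hE, hEK, hM⟩ := hSm K (sizeFlds_sub r₁ r₂ X hK) p hp ⟨hf, hN, hL⟩
      have := eq_of_minFails hRk hLhm p K E ⟨hf, hN, hL, h4⟩ hM hEK
      rw [← this]
      exact hE
    exact_mod_cast Set.ncard_le_ncard hsub hS
  · refine ⟨S, hS, hSc, fun K hK p hp hF => ?_⟩
    obtain ⟨E, hE, hEK, hf, hNE, hM⟩ := hSm K hK p hp hF
    exact ⟨E, hE, hEK, hf, hNE, hM.1⟩

end Pool.Agent.LRN.H29
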