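import Pool.Agent.Helper29_LRN.FINA
import Pool.Agent.Helper29_LRN.GEN
import Pool.Agent.Helper98_LRN.UNW
import Pool.Agent.Helper98_LRN.URE

/-!
# Squad LRN: both orders together
-/

set_option autoImplicit false

open Polynomial NumberField Filter
open Pool.Agent.Helper85_Leo (LeopoldtAt)
open Pool.Agent.LRG

namespace Pool.Agent.LRN.H29

/-- A field whose proper subfields have unit rank zero. -/
theorem ugen_of_rank {K : Type} [Field K] [NumberField K]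
    (h : ∀ E : IntermediateField ℚ K, E ≠ ⊤ → Units.rank E = 0) : UGen K := by
  intro u hu
  by_contra hne
  obtain ⟨E, hE1⟩ : ∃ E : IntermediateField ℚ K,
      E = IntermediateField.adjoin ℚ {((u : 𝓞 K) : K)} := ⟨_, rfl⟩
  have hmem : ((u : 𝓞 K) : K) ∈ E := by
    rw [hE1]
    exact IntermediateField.mem_adjoin_simple_self ℚ _
  have hr := h E (by rw [hE1]; exact hne)
  obtain ⟨v, hv⟩ := H98.exists_unit E u hmem
  obtain ⟨k, hk, h1⟩ := H98.crd_torsion v (fun i => by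
    have h2 := i.2
    omega)
  apply hu
  refine fin_of_pow hk ?_
  rw [← hv]
  have h3 := congrArg (fun t : (𝓞 E)ˣ => (((t : 𝓞 E) : E) : K)) h1
  simpa using h3

/-- The non-CM number fields inside `ℂ` with `r₁` real and `r₂` complex places which have a full
system of independent units with all conjugates at most `X`, or whose proper subfields all have unit
rank zero and whose regulator is at most `(log X) ^ r`, `r = r₁ + r₂ - 1`. -/
def FX (r₁ r₂ : ℕ) (X : ℝ) : Set (IntermediateField ℚ ℂ) :=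
  {K | ∃ _ : NumberField K, InfinitePlace.nrRealPlaces K = r₁ ∧
    InfinitePlace.nrComplexPlaces K = r₂ ∧
    (∀ E : IntermediateField ℚ K, E ≠ ⊤ → Units.rank E < Units.rank K) ∧
    ((∃ u : Fin (Units.rank K) → (𝓞 K)ˣ, Indep u ∧ Bdd u X) ∨
      ((∀ E : IntermediateField ℚ K, E ≠ ⊤ → Units.rank E = 0) ∧
        Units.regulator K ≤ Real.log X ^ (r₁ + r₂ - 1)))}

theorem fx_sub (r₁ r₂ : ℕ) (X : ℝ) :
    FX r₁ r₂ X ⊆ SizeFlds r₁ r₂ X ∪ UReg r₁ r₂ (Real.log X ^ (r₁ + r₂ - 1)) := by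
  rintro K ⟨hN, h1, h2, h3, h | ⟨h4, h5⟩⟩
  · exact Or.inl ⟨hN, h1, h2, h3, h⟩
  · exact Or.inr ⟨hN, h1, h2, ugen_of_rank h4, h5⟩

theorem fx_fin (hffx : FfxStmt) (hfin : ∀ r₁ r₂ : ℕ, 3 ≤ r₁ + r₂ → ∀ T : ℝ, (UReg r₁ r₂ T).Finite)
    (r₁ r₂ : ℕ) (h3 : 3 ≤ r₁ + r₂) (X : ℝ) : (FX r₁ r₂ X).Finite :=
  ((hffx r₁ r₂ X).union (hfin r₁ r₂ h3 _)).subset (fx_sub r₁ r₂ X)

theorem ureg_mono (r₁ r₂ : ℕ) {T T' : ℝ} (h : T ≤ T') : UReg r₁ r₂ T ⊆ UReg r₁ r₂ T' := by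
  rintro K ⟨hK, h1, h2, h4, h3⟩
  exact ⟨hK, h1, h2, h4, h3.trans h⟩

/-- the sources of all counterexamples, both orders -/
theorem master (hone : OneConcl) (hcnt : CntConcl) (hsrc : SrcConcl)
    (hUnw : UnwStmt) (r₁ r₂ : ℕ) (h3 : 3 ≤ r₁ + r₂)
    (hure : (∀ T : ℝ, (UReg r₁ r₂ T).Finite) ∧
      ∀ (p : ℕ) [Fact p.Prime] (ε : ℝ), 0 < ε → ∃ C : ℝ, ∀ T : ℝ, 0 ≤ T →
      ((UReg r₁ r₂ T ∩ Bad p).ncard : ℝ) ≤
        C * Real.exp (ε * T ^ (1 / ((r₁ : ℝ) + r₂ - 1)))) :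
    ∃ (P : ℝ → ℕ) (S : ℝ → Set (IntermediateField ℚ ℂ)), Tendsto P atTop atTop ∧
      (∀ X : ℝ, (S X).Finite) ∧
      (∀ ε : ℝ, 0 < ε → ∃ C : ℝ, ∀ X : ℝ, 1 ≤ X → ((S X).ncard : ℝ) ≤ C * X ^ ε) ∧
      (∀ X : ℝ, 1 ≤ X → ∀ K ∈ UnitFlds (r₁ + 2 * r₂) X, ∀ p ≤ P X, K ∈ Fails p →
          ∃ E ∈ S X, E ≤ K ∧ E ∈ MinB p) ∧
      ∀ X : ℝ, 1 ≤ X → ∀ K ∈ UReg r₁ r₂ (Real.log X ^ (r₁ + r₂ - 1)), ∀ p ≤ P X, K ∈ Fails p →
        K ∈ S X := by
  classical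
  obtain ⟨n, hn⟩ : ∃ n, n = r₁ + 2 * r₂ := ⟨_, rfl⟩
  obtain ⟨r, hr⟩ : ∃ r, r = r₁ + r₂ - 1 := ⟨_, rfl⟩
  have hrc : (r : ℝ) = (r₁ : ℝ) + r₂ - 1 := by
    rw [hr, Nat.cast_sub (by omega)]; push_cast; ring
  have hr0 : (r : ℝ) ≠ 0 := by
    have : 0 < r := by omega
    positivity
  obtain ⟨B, hB⟩ := hsrc n
  have hL : ∀ X : ℝ, 0 ≤ Real.log (max X 1) := fun X => Real.log_nonneg (le_max_right _ _)
  have hmonoL : ∀ X Y : ℝ, X ≤ Y → Real.log (max X 1) ≤ Real.log (max Y 1) := fun X Y h =>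
    Real.log_le_log (zero_lt_one.trans_le (le_max_right _ _)) (max_le_max_right 1 h)
  obtain ⟨P, hP, hPb⟩ := Pool.Agent.LRG.H29.diagonal
    (fun X => Srcs n B X ∪ UReg r₁ r₂ (Real.log (max X 1) ^ r))
    (fun X Y h => Set.union_subset_union (srcs_mono n B X Y h)
      (ureg_mono r₁ r₂ (pow_le_pow_left₀ (hL X) (hmonoL X Y h) r)))
    (fun X => (srcs_fin hone n B X).union (hure.1 _)) MinB
    (fun X => Real.log (max X 1)) (fun X _ => hL X)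
    (Real.tendsto_log_atTop.comp (tendsto_atTop_mono (fun X => le_max_left X 1) tendsto_id))
    (by
      intro p ε hε
      obtain ⟨C₁, hC₁⟩ := srcs_cnt hcnt n B p ε hε
      by_cases hp : p.Prime
      swap
      · refine ⟨0, fun X _ => ?_⟩
        have : (Srcs n B X ∪ UReg r₁ r₂ (Real.log (max X 1) ^ r)) ∩ MinB p = ∅ := by
          rw [Set.eq_empty_iff_forall_notMem]
          rintro K ⟨-, hf, -⟩
          exact hp hf.out
        rw [this]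
        simp
      have : Fact p.Prime := ⟨hp⟩
      obtain ⟨C₂, hC₂⟩ := hure.2 p ε hε
      refine ⟨C₁ + C₂, fun X hX => ?_⟩
      have h1 := hC₁ X hX
      have h2 := hC₂ (Real.log (max X 1) ^ r) (pow_nonneg (hL X) r)
      rw [← hrc, ← Real.rpow_natCast, ← Real.rpow_mul (hL X), mul_one_div_cancel hr0,
        Real.rpow_one] at h2
      have hsub : (Srcs n B X ∪ UReg r₁ r₂ (Real.log (max X 1) ^ r)) ∩ MinB p ⊆
          (Srcs n B X ∩ MinB p) ∪ (UReg r₁ r₂ (Real.log (max X 1) ^ (r : ℝ)) ∩ Bad p) := by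
        rintro K ⟨hK | hK, hf, hM⟩
        · exact Or.inl ⟨hK, hf, hM⟩
        · refine Or.inr ⟨?_, ?_⟩
          · rw [Real.rpow_natCast]
            exact hK
          · obtain ⟨hN, hM'⟩ := hM
            exact ⟨hN, hM'.1⟩
      have h4 : ((Srcs n B X ∩ MinB p) ∪
          (UReg r₁ r₂ (Real.log (max X 1) ^ (r : ℝ)) ∩ Bad p)).Finite :=
        ((srcs_fin hone n B X).subset Set.inter_subset_left).union
          ((hure.1 _).subset Set.inter_subset_left)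
      have h5 := (Set.ncard_le_ncard hsub h4).trans (Set.ncard_union_le _ _)
      have h6 : (((Srcs n B X ∪ UReg r₁ r₂ (Real.log (max X 1) ^ r)) ∩ MinB p).ncard : ℝ) ≤
          ((Srcs n B X ∩ MinB p).ncard : ℝ) +
            ((UReg r₁ r₂ (Real.log (max X 1) ^ (r : ℝ)) ∩ Bad p).ncard : ℝ) := by
        exact_mod_cast h5
      rw [add_mul]
      exact h6.trans (add_le_add h1 h2))
  obtain ⟨S, hSdef⟩ : ∃ S : ℝ → Set (IntermediateField ℚ ℂ), S = fun X =>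
      (Srcs n B X ∪ UReg r₁ r₂ (Real.log (max X 1) ^ r)) ∩
        ⋃ p ∈ Finset.range (P X + 1), MinB p := ⟨_, rfl⟩
  have hmem : ∀ X E p, p ≤ P X → E ∈ Srcs n B X ∪ UReg r₁ r₂ (Real.log (max X 1) ^ r) →
      E ∈ MinB p → E ∈ S X := by
    intro X E p hp h1 h2
    rw [hSdef]
    refine ⟨h1, ?_⟩
    simp only [Set.mem_iUnion, Finset.mem_range, exists_prop]
    exact ⟨p, by omega, h2⟩
  refine ⟨P, S, hP, fun X => ?_, fun ε hε => ?_, ?_, ?_⟩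
  · rw [hSdef]
    exact ((srcs_fin hone n B X).union (hure.1 _)).subset Set.inter_subset_left
  · obtain ⟨C, hC⟩ := hPb ε hε
    refine ⟨C, fun X hX => ?_⟩
    rw [hSdef]
    refine (hC X (zero_le_one.trans hX)).trans (le_of_eq ?_)
    rw [max_eq_left hX, mul_comm ε, ← Real.rpow_def_of_pos (zero_lt_one.trans_le hX)]
  · rintro X hX K hK p hp ⟨hf, hN, hL⟩
    obtain ⟨E, hE, hEK, hM⟩ := hB p X K (by rw [hn]; exact hK) ⟨hN, hL⟩
    exact ⟨E, hmem X E p hp (Or.inl hE) ⟨hf, hM⟩, hEK, hf, hM⟩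
  · rintro X hX K hK p hp ⟨hf, hN, hLK⟩
    have hK' := hK
    obtain ⟨hN2, -, -, hU, -⟩ := hK
    refine hmem X K p hp (Or.inr ?_) ⟨hf, hN2, (hUnw K hU).2.2.2 p hLK⟩
    rw [max_eq_left hX, hr]
    exact hK'

end Pool.Agent.LRN.H29
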