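import Pool.Agent.Helper29_LRN.FINB
import Pool.Agent.LRN.StmtsC
import Pool.Agent.Helper74_LRN.DIR

/-!
# Squad LRN: the final form of the theorem (test version with hypotheses)
-/

set_option autoImplicit false

open Polynomial NumberField Filter
open Pool.Agent.Helper85_Leo (LeopoldtAt)
open Pool.Agent.LRG

namespace Pool.Agent.LRN.H29

/-- The number fields inside `ℂ` with `r₁` real and `r₂` complex places which are not CM: every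
proper subfield has a smaller unit rank. -/
def NonCM (r₁ r₂ : ℕ) : Set (IntermediateField ℚ ℂ) :=
  {K | ∃ _ : NumberField K, InfinitePlace.nrRealPlaces K = r₁ ∧
    InfinitePlace.nrComplexPlaces K = r₂ ∧
    ∀ E : IntermediateField ℚ K, E ≠ ⊤ → Units.rank E < Units.rank K}

/-- The number fields inside `ℂ` which have a full system of independent units with all conjugates
at most `X`. -/
def ShortUnits (X : ℝ) : Set (IntermediateField ℚ ℂ) :=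
  {K | ∃ _ : NumberField K, ∃ u : Fin (Units.rank K) → (𝓞 K)ˣ,
    (∀ c : Fin (Units.rank K) → ℤ, ∏ i, u i ^ c i = 1 → c = 0) ∧
    ∀ i, ∀ σ : K →+* ℂ, ‖σ ((u i : 𝓞 K) : K)‖ ≤ X}

/-- The number fields inside `ℂ` of regulator at most `T` all of whose proper subfields have finite
unit groups. -/
def SmallReg (T : ℝ) : Set (IntermediateField ℚ ℂ) :=
  {K | ∃ _ : NumberField K, Units.regulator K ≤ T ∧
    ∀ E : IntermediateField ℚ K, E ≠ ⊤ → Units.rank E = 0}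

/-- The fields of the theorem. -/
def Flds (r₁ r₂ : ℕ) (X : ℝ) : Set (IntermediateField ℚ ℂ) :=
  {K | K ∈ NonCM r₁ r₂ ∧ (K ∈ ShortUnits X ∨ K ∈ SmallReg (Real.log X ^ (r₁ + r₂ - 1)))}

theorem flds_eq (r₁ r₂ : ℕ) (X : ℝ) : Flds r₁ r₂ X = FX r₁ r₂ X := by
  ext K
  constructor
  · rintro ⟨⟨hN, h1, h2, h3⟩, ⟨_, h⟩ | ⟨_, h4, h5⟩⟩
    · exact ⟨hN, h1, h2, h3, Or.inl h⟩
    · exact ⟨hN, h1, h2, h3, Or.inr ⟨h5, h4⟩⟩
  · rintro ⟨hN, h1, h2, h3, h | ⟨h4, h5⟩⟩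
    · exact ⟨⟨hN, h1, h2, h3⟩, Or.inl ⟨hN, h⟩⟩
    · exact ⟨⟨hN, h1, h2, h3⟩, Or.inr ⟨hN, h5, h4⟩⟩

theorem special (hDir : DirStmt) (r₁ r₂ : ℕ)
    (h : r₁ + 2 * r₂ = 4 ∨ (r₁ + 2 * r₂).Prime ∨ r₁ + r₂ = 3) (p : ℕ)
    (K : IntermediateField ℚ ℂ) (hK : K ∈ NonCM r₁ r₂) (hF : K ∈ Fails p) : K ∈ MinFails p := by
  obtain ⟨hN, h1, h2, h3⟩ := hK
  obtain ⟨hf, _, hL⟩ := hF
  refine ⟨hf, hN, hL, fun E hE h2r => ?_⟩
  exfalso
  obtain ⟨hd, hrk⟩ := H38.sig K h1 h2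
  have h4 := hDir.2 K E hE (h3 E hE) (by
    rw [hd, hrk]
    rcases h with h | h | h
    · exact Or.inl h
    · exact Or.inr (Or.inl h)
    · exact Or.inr (Or.inr (by omega)))
  omega

theorem exhaust (hDir : DirStmt) (r₁ r₂ : ℕ) (K : IntermediateField ℚ ℂ)
    (hK : K ∈ NonCM r₁ r₂) : ∃ X₀ : ℝ, ∀ X : ℝ, X₀ ≤ X → K ∈ Flds r₁ r₂ X := by
  have hK' := hK
  obtain ⟨hN, h1, h2, h3⟩ := hK
  obtain ⟨X₀, u, hu, hb⟩ := hDir.1 K
  exact ⟨X₀, fun X hX => ⟨hK', Or.inl ⟨hN, u, hu, fun i σ => (hb i σ).trans hX⟩⟩⟩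

end Pool.Agent.LRN.H29
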