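import Pool.Agent.Helper29_LRN.FINC
import Pool.Agent.LRY.Stmts

/-!
# Squad LRN: the final form with theorem Y (version with hypotheses)
-/

set_option autoImplicit false

open Polynomial NumberField Filter
open Pool.Agent.Helper85_Leo (LeopoldtAt)
open Pool.Agent.LRG

namespace Pool.Agent.LRN.H29

/-- The number fields inside `ℂ` for which Leopoldt's conjecture fails at `p`, while it holds for all
subfields of index at least `3` and unit rank at least `2`. -/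
def MinFails3 (p : ℕ) : Set (IntermediateField ℚ ℂ) :=
  {K | ∃ (_ : Fact p.Prime) (_ : NumberField K), ¬ LeopoldtAt K p ∧
    ∀ E : IntermediateField ℚ K, 3 ≤ Module.finrank E K → 2 ≤ Units.rank E → LeopoldtAt E p}

theorem minFails3_sub {p : ℕ} {K : IntermediateField ℚ ℂ} (h : K ∈ MinFails3 p) :
    ∃ _ : Fact p.Prime, K ∈ LRY.BadY p := by
  obtain ⟨hf, hN, h1, h2⟩ := h
  exact ⟨hf, hN, h1, h2⟩

/-- both orders, sources and the count for index three -/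
theorem allOrders (hone : OneConcl) (hcnt : CntConcl) (hsrc : SrcConcl) (hRk : Rk1Stmt)
    (hLhm : LhmStmt) (hUnw : UnwStmt) (hffx : FfxStmt) (hUpp : LRY.UppY)
    (hBdy : ∀ (p : ℕ) [Fact p.Prime] (E K : IntermediateField ℚ ℂ),
      K ∈ LRY.BadY p → E ∈ Bad p → E ≤ K → Module.finrank ℚ K ≤ 2 * Module.finrank ℚ E)
    (r₁ r₂ : ℕ) (h3 : 3 ≤ r₁ + r₂)
    (hure : (∀ T : ℝ, (UReg r₁ r₂ T).Finite) ∧
      ∀ (p : ℕ) [Fact p.Prime] (ε : ℝ), 0 < ε → ∃ C : ℝ, ∀ T : ℝ, 0 ≤ T →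
      ((UReg r₁ r₂ T ∩ Bad p).ncard : ℝ) ≤
        C * Real.exp (ε * T ^ (1 / ((r₁ : ℝ) + r₂ - 1)))) :
    ∃ (P : ℝ → ℕ) (S : ℝ → Set (IntermediateField ℚ ℂ)), Tendsto P atTop atTop ∧
      (∀ X : ℝ, 1 ≤ X → ∀ K ∈ UnitFlds (r₁ + 2 * r₂) X, ∀ p ≤ P X, K ∈ Fails p →
          ∃ E ∈ S X, E ≤ K ∧ E ∈ Fails p) ∧
      ∀ ε : ℝ, 0 < ε → ∃ C : ℝ, ∀ X : ℝ, 1 ≤ X →
        (S X).Finite ∧ ((S X).ncard : ℝ) ≤ C * X ^ ε ∧
        ({K | K ∈ FX r₁ r₂ X ∧ ∃ p ≤ P X, K ∈ MinFails p}.ncard : ℝ) ≤ C * X ^ ε ∧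
        ({K | K ∈ FX r₁ r₂ X ∧ ∃ p ≤ P X, K ∈ MinFails3 p}.ncard : ℝ) ≤
          C * X ^ (((r₁ : ℝ) + 2 * r₂) / 2 + ε) := by
  classical
  obtain ⟨P, S', hP, hSf', hPb, hS1', hS2'⟩ := master hone hcnt hsrc hUnw r₁ r₂ h3 hure
  refine ⟨P, S', hP, ?_, fun ε hε => ?_⟩
  · intro X hX K hK p hp hF
    obtain ⟨E, hE, hEK, hf, hNE, hM⟩ := hS1' X hX K hK p hp hF
    exact ⟨E, hE, hEK, hf, hNE, hM.1⟩
  obtain ⟨C, hC⟩ := hPb (ε / 2) (by positivity)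
  obtain ⟨D, hD⟩ := hUpp r₁ r₂ (ε / 2) (by positivity)
  obtain ⟨C', hC'⟩ : ∃ C', C' = |C| := ⟨_, rfl⟩
  obtain ⟨D', hD'⟩ : ∃ D', D' = |D| := ⟨_, rfl⟩
  have hC0 : 0 ≤ C' := by rw [hC']; exact abs_nonneg _
  have hD0 : 0 ≤ D' := by rw [hD']; exact abs_nonneg _
  refine ⟨C' + D' * C', fun X hX => ?_⟩
  have hSc := hC X hX
  have hSf := hSf' X
  have hS1 := hS1' X hX
  have hS2 := hS2' X hX
  generalize S' X = S at hSc hSf hS1 hS2 ⊢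
  have hX0 : (0 : ℝ) < X := zero_lt_one.trans_le hX
  have hn0 : (0 : ℝ) ≤ ((r₁ : ℝ) + 2 * r₂) / 2 := by positivity
  have hSc1 : (S.ncard : ℝ) ≤ C' * X ^ (ε / 2) := by
    refine hSc.trans (mul_le_mul_of_nonneg_right ?_ (Real.rpow_nonneg hX0.le _))
    rw [hC']
    exact le_abs_self _
  have hSc2 : (S.ncard : ℝ) ≤ C' * X ^ ε := by
    refine hSc1.trans (mul_le_mul_of_nonneg_left ?_ hC0)
    exact Real.rpow_le_rpow_of_exponent_le hX (by linarith)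
  have hSc3 : (S.ncard : ℝ) ≤ (C' + D' * C') * X ^ ε := by
    refine hSc2.trans (mul_le_mul_of_nonneg_right ?_ (Real.rpow_nonneg hX0.le _))
    nlinarith [mul_nonneg hD0 hC0]
  refine ⟨hSf, hSc3, ?_, ?_⟩
  · refine le_trans ?_ hSc3
    have hsub : {K | K ∈ FX r₁ r₂ X ∧ ∃ p ≤ P X, K ∈ MinFails p} ⊆ S := by
      rintro K ⟨hK, p, hp, hM⟩
      have hM' := hM
      obtain ⟨hf, hN, hLK, h4⟩ := hM
      rcases fx_sub r₁ r₂ X hK with hK | hK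
      · obtain ⟨E, hE, hEK, hM⟩ := hS1 K (sizeFlds_sub r₁ r₂ X hK) p hp ⟨hf, hN, hLK⟩
        have := eq_of_minFails hRk hLhm p K E hM' hM hEK
        rw [← this]
        exact hE
      · exact hS2 K hK p hp ⟨hf, hN, hLK⟩
    exact_mod_cast Set.ncard_le_ncard hsub hSf
  · -- the fields whose sources have index at most two
    obtain ⟨T, hT⟩ : ∃ T : Set (IntermediateField ℚ ℂ),
        T = {K | K ∈ SizeFlds r₁ r₂ X ∧ ∃ p ≤ P X, K ∈ MinFails3 p} := ⟨_, rfl⟩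
    have hT1 : T ⊆ SizeFlds r₁ r₂ X := by
      rw [hT]
      exact fun K hK => hK.1
    have hT2 : ∀ K ∈ T, ∃ E ∈ S, E ≤ K ∧ Module.finrank ℚ K ≤ 2 * Module.finrank ℚ E := by
      intro K hK
      rw [hT] at hK
      obtain ⟨h1, p, hp, hM⟩ := hK
      obtain ⟨hf, hB⟩ := minFails3_sub hM
      obtain ⟨_, hN, hLK, -⟩ := hM
      obtain ⟨E, hE, hEK, hf', hNE, hM2⟩ := hS1 K (sizeFlds_sub r₁ r₂ X h1) p hp ⟨hf, hN, hLK⟩
      exact ⟨E, hE, hEK, hBdy p E K hB ⟨hNE, hM2.1⟩ hEK⟩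
    have hTc := hD X hX S T hSf hT1 hT2
    have hsub : {K | K ∈ FX r₁ r₂ X ∧ ∃ p ≤ P X, K ∈ MinFails3 p} ⊆ S ∪ T := by
      rintro K ⟨hK, p, hp, hM⟩
      rcases fx_sub r₁ r₂ X hK with hK | hK
      · right
        rw [hT]
        exact ⟨hK, p, hp, hM⟩
      · obtain ⟨hf, hN, hLK, -⟩ := hM
        exact Or.inl (hS2 K hK p hp ⟨hf, hN, hLK⟩)
    have hTf : T.Finite := (hffx r₁ r₂ X).subset hT1
    have h5 := (Set.ncard_le_ncard hsub (hSf.union hTf)).trans (Set.ncard_union_le _ _)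
    have h6 : ({K | K ∈ FX r₁ r₂ X ∧ ∃ p ≤ P X, K ∈ MinFails3 p}.ncard : ℝ) ≤
        (S.ncard : ℝ) + (T.ncard : ℝ) := by exact_mod_cast h5
    have h7 : (S.ncard : ℝ) ≤ C' * X ^ (((r₁ : ℝ) + 2 * r₂) / 2 + ε) := by
      refine hSc1.trans (mul_le_mul_of_nonneg_left ?_ hC0)
      exact Real.rpow_le_rpow_of_exponent_le hX (by linarith)
    have h8 : (T.ncard : ℝ) ≤ D' * C' * X ^ (((r₁ : ℝ) + 2 * r₂) / 2 + ε) := by
      have h9 : D * (S.ncard : ℝ) ≤ D' * (C' * X ^ (ε / 2)) := by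
        calc D * (S.ncard : ℝ) ≤ D' * (S.ncard : ℝ) :=
              mul_le_mul_of_nonneg_right (by rw [hD']; exact le_abs_self _) (Nat.cast_nonneg _)
          _ ≤ D' * (C' * X ^ (ε / 2)) := mul_le_mul_of_nonneg_left hSc1 hD0
      calc (T.ncard : ℝ) ≤ D * S.ncard * X ^ (((r₁ : ℝ) + 2 * r₂) / 2 + ε / 2) := hTc
        _ ≤ D' * (C' * X ^ (ε / 2)) * X ^ (((r₁ : ℝ) + 2 * r₂) / 2 + ε / 2) :=
            mul_le_mul_of_nonneg_right h9 (Real.rpow_nonneg hX0.le _)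
        _ = D' * C' * (X ^ (ε / 2) * X ^ (((r₁ : ℝ) + 2 * r₂) / 2 + ε / 2)) := by ring
        _ = D' * C' * X ^ (((r₁ : ℝ) + 2 * r₂) / 2 + ε) := by
            rw [← Real.rpow_add hX0]
            congr 2
            ring
    rw [add_mul]
    exact h6.trans (add_le_add h7 h8)

end Pool.Agent.LRN.H29
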