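import Pool.Agent.LRN.StmtsB
import Pool.Agent.Helper29_LRG.DGL
import Pool.Agent.Helper77_LRG.FIN
import Pool.Agent.Helper38_LRG.UPR

/-!
# Squad LRN: the final form of the theorem in the order by the size of the units
-/

set_option autoImplicit false

open Polynomial NumberField Filter
open Pool.Agent.Helper85_Leo (LeopoldtAt)
open Pool.Agent.LRG

namespace Pool.Agent.LRN.H29

/-- The number fields inside `ℂ` for which Leopoldt's conjecture fails at the prime `p`. -/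
def Fails (p : ℕ) : Set (IntermediateField ℚ ℂ) :=
  {K | ∃ (_ : Fact p.Prime) (_ : NumberField K), ¬ LeopoldtAt K p}

/-- The minimal counterexamples at `p`. -/
def MinB (p : ℕ) : Set (IntermediateField ℚ ℂ) :=
  {K | ∃ _ : Fact p.Prime, K ∈ MinBad p}

theorem newFlds_mono {n r : ℕ} {X Y : ℝ} (h : X ≤ Y) : NewFlds n r X ⊆ NewFlds n r Y := by
  rintro K ⟨i, h1, u, h2, h3⟩
  exact ⟨i, h1, u, h2, H77.bdd_mono h3 h⟩

theorem srcs_mono (n B : ℕ) (X Y : ℝ) (h : X ≤ Y) : Srcs n B X ⊆ Srcs n B Y := by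
  rintro E ⟨d, s, h1, h2, h3, h4, h5⟩
  refine ⟨d, s, h1, h2, h3, h4, newFlds_mono ?_ h5⟩
  exact pow_le_pow_left₀ (zero_le_one.trans (le_max_right _ _)) (max_le_max_right 1 h) B

theorem srcs_eq (n B : ℕ) (X : ℝ) : Srcs n B X =
    ⋃ a ∈ (Finset.Icc 2 n ×ˢ Finset.Icc 1 n : Finset (ℕ × ℕ)),
      NewFlds a.1 a.2 ((max X 1) ^ B) := by
  ext E
  simp only [Srcs, Set.mem_ofPred_eq, Set.mem_iUnion, Finset.mem_product, Finset.mem_Icc,
    exists_prop, Prod.exists]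
  constructor
  · rintro ⟨d, s, h1, h2, h3, h4, h5⟩
    exact ⟨d, s, ⟨⟨h1, h2⟩, h3, h4⟩, h5⟩
  · rintro ⟨d, s, ⟨⟨h1, h2⟩, h3, h4⟩, h5⟩
    exact ⟨d, s, h1, h2, h3, h4, h5⟩

theorem newFlds_fin (hone : OneConcl) (d s : ℕ) (hd : 1 < d) (hs : 0 < s) (X : ℝ) (hX : 1 ≤ X) :
    (NewFlds d s X).Finite := by
  obtain ⟨C, hC⟩ := hone d hd
  refine (hC X hX).1.subset ?_
  rintro K ⟨i, h1, u, h2, h3⟩
  exact ⟨i, h1, fun _ => u ⟨0, hs⟩, h2.new _, H77.indep_single h2.ind _, fun _ σ => h3 _ σ⟩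

theorem srcs_fin (hone : OneConcl) (n B : ℕ) (X : ℝ) : (Srcs n B X).Finite := by
  rw [srcs_eq]
  refine Set.Finite.biUnion (Finset.finite_toSet _) ?_
  intro a ha
  simp only [Finset.coe_product, Finset.coe_Icc, Set.mem_prod, Set.mem_Icc] at ha
  exact newFlds_fin hone _ _ (by omega) (by omega) _ (one_le_pow₀ (le_max_right _ _))

theorem ncard_biUnion_le {α ι : Type} [DecidableEq ι] (t : Finset ι) (f : ι → Set α)
    (h : ∀ a ∈ t, (f a).Finite) : (⋃ a ∈ t, f a).Finite ∧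
      (⋃ a ∈ t, f a).ncard ≤ ∑ a ∈ t, (f a).ncard := by
  induction t using Finset.induction_on with
  | empty => simp
  | insert a t ha ih =>
    obtain ⟨ih1, ih2⟩ := ih (fun b hb => h b (by simp [hb]))
    rw [Finset.set_biUnion_insert, Finset.sum_insert ha]
    exact ⟨(h a (by simp)).union ih1,
      (Set.ncard_union_le _ _).trans (Nat.add_le_add_left ih2 _)⟩

/-- few sources which fail at one prime -/
theorem srcs_cnt (hcnt : CntConcl) (n B p : ℕ) (ε : ℝ) (hε : 0 < ε) : ∃ C : ℝ, ∀ X : ℝ, 0 ≤ X →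
    ((Srcs n B X ∩ MinB p).ncard : ℝ) ≤ C * Real.exp (ε * Real.log (max X 1)) := by
  classical
  by_cases hp : p.Prime
  swap
  · refine ⟨0, fun X _ => ?_⟩
    have : Srcs n B X ∩ MinB p = ∅ := by
      rw [Set.eq_empty_iff_forall_notMem]
      rintro K ⟨-, hf, -⟩
      exact hp hf.out
    rw [this]
    simp
  have : Fact p.Prime := ⟨hp⟩
  have hB1 : (0 : ℝ) < (B : ℝ) + 1 := by positivity
  have hex : ∀ a : ℕ × ℕ, ∃ C : ℝ, a ∈ (Finset.Icc 2 n ×ˢ Finset.Icc 1 n : Finset (ℕ × ℕ)) →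
      ∀ X : ℝ, 1 ≤ X → (NewFlds a.1 a.2 X ∩ MinBad p).Finite ∧
        ((NewFlds a.1 a.2 X ∩ MinBad p).ncard : ℝ) ≤ C * X ^ (ε / ((B : ℝ) + 1)) := by
    intro a
    by_cases ha : a ∈ (Finset.Icc 2 n ×ˢ Finset.Icc 1 n : Finset (ℕ × ℕ))
    · simp only [Finset.mem_product, Finset.mem_Icc] at ha
      obtain ⟨C, hC⟩ := hcnt p a.1 a.2 (ε / ((B : ℝ) + 1)) (by positivity) (by omega) (by omega)
      exact ⟨C, fun _ => hC⟩
    · exact ⟨0, fun h => absurd h ha⟩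
  choose C hC using hex
  refine ⟨∑ a ∈ Finset.Icc 2 n ×ˢ Finset.Icc 1 n, |C a|, fun X _ => ?_⟩
  have hY : (1 : ℝ) ≤ max X 1 := le_max_right _ _
  have hY0 : (0 : ℝ) < max X 1 := zero_lt_one.trans_le hY
  obtain ⟨Y, hYe⟩ : ∃ Y, Y = max X 1 := ⟨_, rfl⟩
  rw [← hYe] at hY hY0 ⊢
  have hYB : 1 ≤ Y ^ B := one_le_pow₀ hY
  have hbound : ∀ a ∈ (Finset.Icc 2 n ×ˢ Finset.Icc 1 n : Finset (ℕ × ℕ)),
      ((NewFlds a.1 a.2 (Y ^ B) ∩ MinBad p).ncard : ℝ) ≤ |C a| * Real.exp (ε * Real.log Y) := by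
    intro a ha
    refine ((hC a ha _ hYB).2).trans ?_
    have h1 : (Y ^ B) ^ (ε / ((B : ℝ) + 1)) ≤ Real.exp (ε * Real.log Y) := by
      have h2 : Real.exp (ε * Real.log Y) = Y ^ ε := by
        rw [mul_comm, ← Real.rpow_def_of_pos hY0]
      rw [h2, ← Real.rpow_natCast, ← Real.rpow_mul hY0.le]
      apply Real.rpow_le_rpow_of_exponent_le hY
      rw [mul_div_assoc', div_le_iff₀ hB1]
      nlinarith
    have h0 : (0 : ℝ) ≤ (Y ^ B) ^ (ε / ((B : ℝ) + 1)) := Real.rpow_nonneg (by positivity) _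
    calc C a * (Y ^ B) ^ (ε / ((B : ℝ) + 1))
        ≤ |C a| * (Y ^ B) ^ (ε / ((B : ℝ) + 1)) :=
          mul_le_mul_of_nonneg_right (le_abs_self _) h0
      _ ≤ |C a| * Real.exp (ε * Real.log Y) := mul_le_mul_of_nonneg_left h1 (abs_nonneg _)
  have hfin : ∀ a ∈ (Finset.Icc 2 n ×ˢ Finset.Icc 1 n : Finset (ℕ × ℕ)),
      (NewFlds a.1 a.2 (Y ^ B) ∩ MinBad p).Finite := fun a ha => (hC a ha _ hYB).1
  have hsub : Srcs n B X ∩ MinB p ⊆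
      ⋃ a ∈ (Finset.Icc 2 n ×ˢ Finset.Icc 1 n : Finset (ℕ × ℕ)),
        (NewFlds a.1 a.2 (Y ^ B) ∩ MinBad p) := by
    rintro E ⟨hE, _, hM⟩
    rw [srcs_eq, ← hYe] at hE
    obtain ⟨a, ha, hEa⟩ := Set.mem_iUnion₂.mp hE
    exact Set.mem_iUnion₂.mpr ⟨a, ha, hEa, hM⟩
  obtain ⟨h1, h2⟩ := ncard_biUnion_le (Finset.Icc 2 n ×ˢ Finset.Icc 1 n : Finset (ℕ × ℕ))
    (fun a => NewFlds a.1 a.2 (Y ^ B) ∩ MinBad p) hfin
  calc ((Srcs n B X ∩ MinB p).ncard : ℝ)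
      ≤ ((∑ a ∈ Finset.Icc 2 n ×ˢ Finset.Icc 1 n,
        (NewFlds a.1 a.2 (Y ^ B) ∩ MinBad p).ncard : ℕ) : ℝ) := by
        exact_mod_cast (Set.ncard_le_ncard hsub h1).trans h2
    _ = ∑ a ∈ Finset.Icc 2 n ×ˢ Finset.Icc 1 n,
        ((NewFlds a.1 a.2 (Y ^ B) ∩ MinBad p).ncard : ℝ) := by push_cast; rfl
    _ ≤ ∑ a ∈ Finset.Icc 2 n ×ˢ Finset.Icc 1 n, |C a| * Real.exp (ε * Real.log Y) :=
        Finset.sum_le_sum hbound
    _ = _ := by rw [Finset.sum_mul]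

/-- The conclusion of the row SRC. -/
def SrcConcl : Prop := ∀ n : ℕ, ∃ B : ℕ,
  ∀ (p : ℕ) [Fact p.Prime] (X : ℝ) (K : IntermediateField ℚ ℂ), K ∈ UnitFlds n X → K ∈ Bad p →
    ∃ E ∈ Srcs n B X, E ≤ K ∧ E ∈ MinBad p

/-- **The sources of all counterexamples.** -/
theorem sources (hone : OneConcl) (hcnt : CntConcl) (hsrc : SrcConcl) (n : ℕ) :
    ∃ P : ℝ → ℕ, Tendsto P atTop atTop ∧ ∀ ε : ℝ, 0 < ε → ∃ C : ℝ, ∀ X : ℝ, 1 ≤ X →
      ∃ S : Set (IntermediateField ℚ ℂ), S.Finite ∧ (S.ncard : ℝ) ≤ C * X ^ ε ∧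
        ∀ K ∈ UnitFlds n X, ∀ p ≤ P X, K ∈ Fails p → ∃ E ∈ S, E ≤ K ∧ E ∈ MinB p := by
  obtain ⟨B, hB⟩ := hsrc n
  obtain ⟨P, hP, hPb⟩ := Pool.Agent.LRG.H29.diagonal (fun X => Srcs n B X)
    (fun X Y h => srcs_mono n B X Y h) (srcs_fin hone n B) MinB
    (fun X => Real.log (max X 1)) (fun X _ => Real.log_nonneg (le_max_right _ _))
    (Real.tendsto_log_atTop.comp (tendsto_atTop_mono (fun X => le_max_left X 1) tendsto_id))
    (fun p ε hε => srcs_cnt hcnt n B p ε hε)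
  refine ⟨P, hP, fun ε hε => ?_⟩
  obtain ⟨C, hC⟩ := hPb ε hε
  refine ⟨C, fun X hX => ?_⟩
  refine ⟨Srcs n B X ∩ ⋃ p ∈ Finset.range (P X + 1), MinB p,
    (srcs_fin hone n B X).subset Set.inter_subset_left, ?_, ?_⟩
  · refine (hC X (zero_le_one.trans hX)).trans (le_of_eq ?_)
    rw [max_eq_left hX, mul_comm ε, ← Real.rpow_def_of_pos (zero_lt_one.trans_le hX)]
  · rintro K hK p hp ⟨hf, hN, hL⟩
    obtain ⟨E, hE, hEK, hM⟩ := hB p X K hK ⟨hN, hL⟩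
    refine ⟨E, ⟨hE, ?_⟩, hEK, hf, hM⟩
    simp only [Set.mem_iUnion, Finset.mem_range, exists_prop]
    exact ⟨p, by omega, hf, hM⟩

end Pool.Agent.LRN.H29
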