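import Pool.Agent.Helper29_LRN.AssF

/-!
# Squad LRN: for primitive fields every violation is minimal
-/

set_option autoImplicit false

open NumberField Filter
open Pool.Agent.LRG

namespace Pool.Agent.LRN.H29

/-- All violations of primitive fields are minimal. -/
theorem prim_min (p : ℕ) (K : IntermediateField ℚ ℂ) (hP : K ∈ Prim) (hF : K ∈ Fails p) :
    K ∈ MinFails p := by
  obtain ⟨hf, hN, hL⟩ := hF
  refine ⟨hf, hN, hL, fun E hE h2 => ?_⟩
  exfalso
  have h0 := H98.sub_rank (ugen_of_primitive hP) E hE
  omega

end Pool.Agent.LRN.H29
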